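import Pool.Agent.Helper46.CP.Disj2
import Pool.Agent.Helper58.CP.Defs

/-!
# `CP.ST_DISJ`
-/

namespace CPW

open Complex CP

noncomputable section

variable {D V F : Type} [Fintype D] [Fintype V] [Fintype F]

theorem v1_eq (m : LM D V F) (d : D) : m.v1 d = m.vt (m.opp d) := m.vt_rot _

/-- the triple of a dart -/
def tri (m : LM D V F) (d : D) : V × V × V := (m.vt d, m.v1 d, m.v2 d)

theorem tri_inj (m : LM D V F) (hT : m.Tri) {d d' : D} (h1 : m.vt d = m.vt d')
    (h2 : m.v1 d = m.v1 d') : d = d' := by
  rw [v1_eq, v1_eq] at h2
  exact hT.inj d d' h1 h2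

theorem tri_face (m : LM D V F) (hT : m.Tri) (d : D) :
    tri m (m.face d) = (m.v1 d, m.v2 d, m.vt d) := by
  unfold tri LM.v1 LM.v2
  rw [hT.f3]

theorem face_ne (m : LM D V F) (hT : m.Tri) (d : D) : m.face d ≠ d := by
  intro h
  apply hT.noloop d
  rw [← v1_eq]
  unfold LM.v1
  rw [h]

theorem card_D (m : LM D V F) (hT : m.Tri) : Fintype.card D + 12 = 6 * Fintype.card V := by
  classical
  have h1 : Fintype.card D = 3 * Fintype.card F := by
    have h2 := Finset.card_eq_sum_card_fiberwise (f := m.fc) (s := (Finset.univ : Finset D))
      (t := (Finset.univ : Finset F)) (fun x _ => Finset.mem_coe.mpr (Finset.mem_univ _))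
    rw [Finset.card_univ] at h2
    rw [h2]
    have h3 : ∀ φ ∈ (Finset.univ : Finset F),
        ((Finset.univ : Finset D).filter (fun d => m.fc d = φ)).card = 3 := by
      intro φ _
      obtain ⟨d, hd⟩ := m.fc_surj φ
      have hset : (Finset.univ : Finset D).filter (fun x => m.fc x = φ) =
          {d, m.face d, m.face (m.face d)} := by
        ext x
        simp only [Finset.mem_filter, Finset.mem_univ, true_and, Finset.mem_insert,
          Finset.mem_singleton]
        constructor
        · intro hx
          exact hT.fib d x (hx.trans hd.symm)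
        · have hf : ∀ y, m.fc (m.face y) = m.fc y := fun y => m.fc_face y
          rintro (rfl | rfl | rfl)
          · exact hd
          · rw [hf]; exact hd
          · rw [hf, hf]; exact hd
      rw [hset]
      have n1 := face_ne m hT d
      have n2 := face_ne m hT (m.face d)
      have n3 : m.face (m.face d) ≠ d := by
        intro h
        have h4 := hT.f3 d
        rw [h] at h4
        exact n1 h4
      rw [Finset.card_insert_of_notMem, Finset.card_insert_of_notMem, Finset.card_singleton]
      · simpa using n2.symm
      · simp only [Finset.mem_insert, Finset.mem_singleton]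
        rintro (h | h)
        · exact n1 h.symm
        · exact n3 h.symm
    rw [Finset.sum_congr rfl h3, Finset.sum_const, Finset.card_univ]
    simp [mul_comm]
  have h2 := m.euler
  omega

theorem ang_pos {x y w : ℝ} (hx : 0 < x) (hy : 0 < y) (hw : 0 < w) :
    0 < ang x y w ∧ ang x y w < Real.pi := by
  unfold ang rho
  have h1 : 0 < Real.sqrt (x * y * w / (x + y + w)) / x := by positivity
  have h2 := Real.arctan_pos.mpr h1
  have h3 := Real.arctan_lt_pi_div_two (Real.sqrt (x * y * w / (x + y + w)) / x)
  constructor <;> linarith

/-- consequences of the layout equation -/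
theorem lay_ang {x y : ℂ} {a b α : ℝ} (ha : 0 < a) (hb : 0 < b) (h0 : 0 < α) (h1 : α < Real.pi)
    (hx : x ≠ 0) (h : y * (a : ℂ) = x * (b : ℂ) * exp ((α : ℝ) * I)) :
    0 < cr x y ∧ arg (y / x) = α := by
  have ha' : (a : ℂ) ≠ 0 := by exact_mod_cast ha.ne'
  have hy : y / x = ((b / a : ℝ) : ℂ) * exp ((α : ℝ) * I) := by
    push_cast
    field_simp
    linear_combination h
  have hba : 0 < b / a := by positivity
  have h2 : arg (y / x) = α := by
    rw [hy, Complex.arg_real_mul _ hba, Complex.arg_exp_mul_I]
    rw [toIocMod_eq_self]
    constructor <;> linarith [Real.pi_pos]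
  refine ⟨?_, h2⟩
  have h3 : 0 < (y / x).im := by
    rw [hy, Complex.im_ofReal_mul]
    rw [Complex.exp_ofReal_mul_I_im]
    exact mul_pos hba (Real.sin_pos_of_pos_of_lt_pi h0 h1)
  rw [im_div] at h3
  have h4 : 0 < normSq x := Complex.normSq_pos.mpr hx
  by_contra hcon
  push Not at hcon
  have := div_nonpos_of_nonpos_of_nonneg hcon h4.le
  linarith

theorem st_DISJ : ST_DISJ := by
  classical
  intro D V F _ _ _ m o R z hT hR hZ u v huv
  have hdist : ∀ d, ‖z (m.v1 d) - z (m.vt d)‖ = R (m.vt d) + R (m.v1 d) := by
    intro d
    rw [v1_eq]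
    exact hZ.dist d
  have hdx : ∀ d, z (m.v1 d) - z (m.vt d) ≠ 0 := by
    intro d h
    have h1 := hdist d
    rw [h, norm_zero] at h1
    have := hR.pos (m.vt d)
    have := hR.pos (m.v1 d)
    linarith
  have hkey : ∀ d, m.fc d ≠ m.fc o → 0 < cr (z (m.v1 d) - z (m.vt d)) (z (m.v2 d) - z (m.vt d)) ∧
      arg ((z (m.v2 d) - z (m.vt d)) / (z (m.v1 d) - z (m.vt d))) = m.angd R d := by
    intro d hd
    have h1 := hR.pos (m.vt d)
    have h2 := hR.pos (m.v1 d)
    have h3 := hR.pos (m.v2 d)
    obtain ⟨h4, h5⟩ := ang_pos h1 h2 h3
    exact lay_ang (by linarith) (by linarith) h4 h5 (hdx d) (hZ.ang d hd)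
  have hout : ∀ d, m.fc d = m.fc o → tri m d = tri m o ∨ tri m (m.face d) = tri m o ∨
      tri m (m.face (m.face d)) = tri m o := by
    intro d hd
    rcases hT.fib o d hd with h | h | h
    · left; rw [h]
    · right; right; rw [h, hT.f3]
    · right; left; rw [h, hT.f3]
  let T : Finset (V × V × V) := Finset.univ.image (tri m)
  have hmem : ∀ t, t ∈ T ↔ ∃ d, tri m d = t := by
    intro t
    simp only [T, Finset.mem_image, Finset.mem_univ, true_and]
  have hinj : Function.Injective (tri m) := by
    intro d d' h
    exact tri_inj m hT (congrArg Prod.fst h) (congrArg (fun x => x.2.1) h)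
  let L : Lay V :=
    { T := T
      rot := by
        intro p q s h
        obtain ⟨d, hd⟩ := (hmem _).mp h
        refine (hmem _).mpr ⟨m.face d, ?_⟩
        rw [tri_face m hT]
        unfold tri at hd
        simp only [Prod.mk.injEq] at hd
        obtain ⟨rfl, rfl, rfl⟩ := hd
        rfl
      uniq := by
        intro p q s s' h h'
        obtain ⟨d, hd⟩ := (hmem _).mp h
        obtain ⟨d', hd'⟩ := (hmem _).mp h'
        unfold tri at hd hd'
        simp only [Prod.mk.injEq] at hd hd'
        have := tri_inj m hT (hd.1.trans hd'.1.symm) (hd.2.1.trans hd'.2.1.symm)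
        rw [← hd.2.2, ← hd'.2.2, this]
      opp := by
        intro p q s h
        obtain ⟨d, hd⟩ := (hmem _).mp h
        unfold tri at hd
        simp only [Prod.mk.injEq] at hd
        refine ⟨m.v2 (m.opp d), (hmem _).mpr ⟨m.opp d, ?_⟩⟩
        unfold tri
        rw [← v1_eq, hd.2.1, v1_eq, m.opp_opp, hd.1]
      hcard := by
        rw [Finset.card_image_of_injective _ hinj, Finset.card_univ]
        exact card_D m hT
      O := tri m o
      hO := (hmem _).mpr ⟨o, rfl⟩
      c := z
      r := R
      hr := hR.pos
      hd := by
        intro p q s h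
        obtain ⟨d, hd⟩ := (hmem _).mp h
        unfold tri at hd
        simp only [Prod.mk.injEq] at hd
        rw [dist_comm, dist_eq_norm, ← hd.1, ← hd.2.1]
        exact hdist d
      hpos := by
        intro p q s h h1 h2 h3
        obtain ⟨d, hd⟩ := (hmem _).mp h
        have hf : m.fc d ≠ m.fc o := by
          intro hfd
          rcases hout d hfd with h4 | h4 | h4
          · exact h1 (hd.symm.trans h4)
          · apply h2
            rw [← h4, tri_face m hT]
            unfold tri at hd
            simp only [Prod.mk.injEq] at hd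
            rw [hd.1, hd.2.1, hd.2.2]
          · apply h3
            rw [← h4, tri_face m hT]
            unfold tri at hd
            simp only [Prod.mk.injEq] at hd
            have e1 : m.v1 (m.face d) = m.v2 d := rfl
            have e2 : m.v2 (m.face d) = m.vt d := by
              unfold LM.v2; rw [hT.f3]
            have e3 : m.vt (m.face d) = m.v1 d := rfl
            rw [e1, e2, e3, hd.1, hd.2.1, hd.2.2]
        have h4 := (hkey d hf).1
        unfold tri at hd
        simp only [Prod.mk.injEq] at hd
        rw [hd.1, hd.2.1, hd.2.2] at h4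
        exact h4
      hang := by
        intro w h1 h2 h3
        have hw : ¬ m.outer o w := by
          rintro (h | h | h)
          · exact h1 h
          · exact h2 h
          · exact h3 h
        have h4 := hR.sum w hw
        rw [← h4]
        have h5 : T.filter (fun t => t.1 = w) =
            ((Finset.univ : Finset D).filter (fun d => m.vt d = w)).image (tri m) := by
          ext t
          simp only [Finset.mem_filter, hmem, Finset.mem_image, Finset.mem_univ, true_and]
          constructor
          · rintro ⟨⟨d, rfl⟩, h⟩
            exact ⟨d, h, rfl⟩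
          · rintro ⟨d, h, rfl⟩
            exact ⟨⟨d, rfl⟩, h⟩
        rw [h5, Finset.sum_image (fun a _ b _ h => hinj h)]
        refine Finset.sum_congr rfl ?_
        intro d hd
        have hd' : m.vt d = w := (Finset.mem_filter.mp hd).2
        have hf : m.fc d ≠ m.fc o := by
          intro hfd
          have : m.outer o (m.vt d) := by
            rcases hT.fib o d hfd with h | h | h
            · left; rw [h]
            · right; left; rw [h]; rfl
            · right; right; rw [h]; rfl
          exact hw (hd' ▸ this)
        have h6 := (hkey d hf).2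
        rw [hd'] at h6
        exact h6 }
  have := L.disj u v huv
  rw [dist_eq_norm] at this
  exact this

end

end CPW
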