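import Pool.Agent.Helper46.CP.Wind

/-!
# Disjointness of the discs
-/

namespace CPW

open Complex

noncomputable section

namespace Lay

variable {V : Type*} [Fintype V] [DecidableEq V] (L : Lay V)

/-- rotations of the outer triple -/
def IsOut (t : V × V × V) : Prop :=
  (t.1, t.2.1, t.2.2) = L.O ∨ (t.2.1, t.2.2, t.1) = L.O ∨ (t.2.2, t.1, t.2.1) = L.O

theorem pos' {t : V × V × V} (h : t ∈ L.T) (ho : ¬ L.IsOut t) :
    0 < cr (L.c t.2.1 - L.c t.1) (L.c t.2.2 - L.c t.1) := by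
  obtain ⟨p, q, s⟩ := t
  refine L.hpos p q s h ?_ ?_ ?_
  · intro h1; exact ho (Or.inl h1)
  · intro h1; exact ho (Or.inr (Or.inl h1))
  · intro h1; exact ho (Or.inr (Or.inr h1))

theorem isOut_rot {t : V × V × V} : L.IsOut (t.2.1, t.2.2, t.1) ↔ L.IsOut t := by
  unfold IsOut
  simp only
  tauto

theorem F_rot (z : ℂ) (t : V × V × V) : L.F z (t.2.1, t.2.2, t.1) = L.F z t := by
  unfold F
  simp only
  ring

theorem O_F (z : ℂ) {t : V × V × V} (h : L.IsOut t) : L.F z t = L.F z L.O := by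
  rcases h with h | h | h
  · rw [← h]
  · rw [← h, L.F_rot]
  · rw [← h]
    have := L.F_rot z (t.2.2, t.1, t.2.1)
    simp only at this
    rw [← this]

/-- twice the signed area -/
def area (t : V × V × V) : ℝ := cr (L.c t.2.1 - L.c t.1) (L.c t.2.2 - L.c t.1)

theorem area_rot (t : V × V × V) : L.area (t.2.1, t.2.2, t.1) = L.area t := by
  unfold area cr
  simp only [Complex.sub_re, Complex.sub_im]
  ring

theorem O_area {t : V × V × V} (h : L.IsOut t) : L.area t = L.area L.O := by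
  rcases h with h | h | h
  · rw [← h]
  · rw [← h, L.area_rot]
  · rw [← h]
    have := L.area_rot (t.2.2, t.1, t.2.1)
    simp only at this
    rw [← this]

theorem area_total : ∑ t ∈ L.T, L.area t = 0 := by
  have h0 : ∀ t : V × V × V, L.area t = cr (L.c t.1) (L.c t.2.1) + cr (L.c t.2.1) (L.c t.2.2) +
      cr (L.c t.2.2) (L.c t.1) := by
    intro t
    unfold area cr
    simp only [Complex.sub_re, Complex.sub_im]
    ring
  simp only [h0]
  rw [Finset.sum_add_distrib, Finset.sum_add_distrib]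
  have h1 := L.sum_rot (fun a b _ => cr (L.c a) (L.c b))
  have h2 := L.sum_rot (fun a _ b => cr (L.c b) (L.c a))
  have h3 := L.sum_anti (fun a b => cr (L.c a) (L.c b)) (fun t h => cr_swap _ _)
  beta_reduce at h1 h2 h3
  linarith

theorem ne3 {p q s : V} (h : (p, q, s) ∈ L.T) : p ≠ q ∧ q ≠ s ∧ s ≠ p :=
  ⟨L.c_ne h, L.c_ne (L.rot _ _ _ h), L.c_ne (L.rot2 h)⟩

theorem exists_inner : ∃ t ∈ L.T, ¬ L.IsOut t := by
  obtain ⟨⟨p, q, s⟩, hO⟩ : ∃ x, L.O = x := ⟨_, rfl⟩
  have hm : (p, q, s) ∈ L.T := hO ▸ L.hO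
  obtain ⟨s', hs'⟩ := L.opp _ _ _ hm
  obtain ⟨n1, n2, n3⟩ := L.ne3 hm
  refine ⟨(q, p, s'), hs', ?_⟩
  unfold IsOut
  rw [hO]
  simp only [Prod.mk.injEq]
  rintro (h | h | h)
  · exact n1 h.1.symm
  · exact n2 h.2.2
  · have h2 := h.2.1
    -- s' = p, q = q, p = s
    exact n3 h.2.2.symm

theorem O_neg : L.area L.O < 0 := by
  by_contra hcon
  push Not at hcon
  obtain ⟨t0, h0, h1⟩ := L.exists_inner
  have h2 : 0 < ∑ t ∈ L.T, L.area t := by
    refine Finset.sum_pos' ?_ ⟨t0, h0, L.pos' h0 h1⟩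
    intro t ht
    by_cases ho : L.IsOut t
    · rw [L.O_area ho]; exact hcon
    · exact (L.pos' ht ho).le
  rw [L.area_total] at h2
  exact lt_irrefl _ h2

theorem gen3 {z : ℂ} (hz : L.Gen z) {t : V × V × V} (h : t ∈ L.T) :
    cr (L.c t.1 - z) (L.c t.2.1 - z) ≠ 0 ∧ cr (L.c t.2.1 - z) (L.c t.2.2 - z) ≠ 0 ∧
      cr (L.c t.2.2 - z) (L.c t.1 - z) ≠ 0 := by
  obtain ⟨p, q, s⟩ := t
  exact ⟨hz _ h, hz _ (L.rot _ _ _ h), hz _ (L.rot2 h)⟩

theorem F_inner {z : ℂ} (hz : L.Gen z) {t : V × V × V} (h : t ∈ L.T) (ho : ¬ L.IsOut t) :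
    L.F z t = 0 ∨ L.F z t = 2 * Real.pi := by
  obtain ⟨g1, g2, g3⟩ := L.gen3 hz h
  rcases tri_sum g1 g2 g3 with h1 | h1 | h1
  · exact Or.inl h1
  · exact Or.inr h1
  · have := L.pos' h ho
    exact absurd h1.2 (not_lt.mpr this.le)

theorem F_ge {z : ℂ} (hz : L.Gen z) {t : V × V × V} (h : t ∈ L.T) :
    L.F z t = 0 ∨ L.F z t = 2 * Real.pi ∨ L.F z t = -(2 * Real.pi) := by
  obtain ⟨g1, g2, g3⟩ := L.gen3 hz h
  rcases tri_sum g1 g2 g3 with h1 | h1 | h1
  · exact Or.inl h1
  · exact Or.inr (Or.inl h1)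
  · exact Or.inr (Or.inr h1.1)

open Classical in
/-- inner triples containing `z` -/
def In (z : ℂ) : Finset (V × V × V) := L.T.filter (fun t => ¬ L.IsOut t ∧ L.F z t = 2 * Real.pi)

open Classical in
theorem out_card : (L.T.filter (fun t => L.IsOut t)).card ≤ 3 := by
  have h1 : L.T.filter (fun t => L.IsOut t) ⊆
      {L.O, (L.O.2.2, L.O.1, L.O.2.1), (L.O.2.1, L.O.2.2, L.O.1)} := by
    intro t ht
    obtain ⟨_, h⟩ := Finset.mem_filter.mp ht
    rcases h with h | h | h
    · rw [Finset.mem_insert]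
      left
      rw [← h]
    · rw [Finset.mem_insert, Finset.mem_insert]
      right; left
      rw [← h]
    · rw [Finset.mem_insert, Finset.mem_insert, Finset.mem_singleton]
      right; right
      rw [← h]
  exact (Finset.card_le_card h1).trans (Finset.card_le_three)

open Classical in
theorem in_card {z : ℂ} (hz : L.Gen z) :
    2 * Real.pi * (L.In z).card = - ((L.T.filter (fun t => L.IsOut t)).card * L.F z L.O) := by
  have h0 := L.total hz
  rw [← Finset.sum_filter_add_sum_filter_not L.T (fun t => L.IsOut t)] at h0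
  have h1 : ∑ t ∈ L.T with L.IsOut t, L.F z t =
      (L.T.filter (fun t => L.IsOut t)).card * L.F z L.O := by
    rw [Finset.sum_congr rfl (fun t ht => L.O_F z (Finset.mem_filter.mp ht).2)]
    simp
  have h2 : ∑ t ∈ L.T with ¬ L.IsOut t, L.F z t = 2 * Real.pi * (L.In z).card := by
    have h3 : L.In z = (L.T.filter (fun t => ¬ L.IsOut t)).filter
        (fun t => L.F z t = 2 * Real.pi) := by
      unfold In
      rw [Finset.filter_filter]
    rw [h3, ← Finset.sum_filter_add_sum_filter_not _ (fun t => L.F z t = 2 * Real.pi)]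
    rw [Finset.sum_congr rfl (fun t ht => (Finset.mem_filter.mp ht).2), Finset.sum_const,
      nsmul_eq_mul]
    have h4 : ∑ t ∈ (L.T.filter (fun t => ¬ L.IsOut t)).filter
        (fun t => ¬ L.F z t = 2 * Real.pi), L.F z t = 0 := by
      refine Finset.sum_eq_zero ?_
      intro t ht
      obtain ⟨a1, a2⟩ := Finset.mem_filter.mp ht
      obtain ⟨b1, b2⟩ := Finset.mem_filter.mp a1
      rcases L.F_inner hz b1 b2 with h | h
      · exact h
      · exact absurd h a2
    rw [h4]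
    ring
  rw [h1, h2] at h0
  linarith

theorem in_card_le {z : ℂ} (hz : L.Gen z) : (L.In z).card ≤ 3 := by
  classical
  have h1 := L.in_card hz
  have h2 := L.out_card
  have hpi := Real.pi_pos
  have h3 : -(2 * Real.pi) ≤ L.F z L.O := by
    rcases L.F_ge hz L.hO with h | h | h <;> rw [h] <;> linarith
  have h4 : ((L.T.filter (fun t => L.IsOut t)).card : ℝ) ≤ 3 := by exact_mod_cast h2
  have h5 : (0 : ℝ) ≤ (L.T.filter (fun t => L.IsOut t)).card := by positivity
  have h6 : ((L.In z).card : ℝ) ≤ 3 := by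
    by_contra hc
    push Not at hc
    nlinarith
  exact_mod_cast h6

theorem in_rot {z : ℂ} {t : V × V × V} (h : t ∈ L.In z) : (t.2.1, t.2.2, t.1) ∈ L.In z := by
  classical
  unfold In at h ⊢
  rw [Finset.mem_filter] at h ⊢
  obtain ⟨h1, h2, h3⟩ := h
  refine ⟨L.rot _ _ _ h1, ?_, ?_⟩
  · rwa [L.isOut_rot]
  · rwa [L.F_rot]

theorem in_mem {z : ℂ} {t : V × V × V} (h : t ∈ L.In z) : t ∈ L.T := by
  classical
  unfold In at h
  exact (Finset.mem_filter.mp h).1

/-- two inner triples containing the same point have the same vertices -/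
theorem same {z : ℂ} (hz : L.Gen z) {t t' : V × V × V} (h : t ∈ L.In z) (h' : t' ∈ L.In z) :
    t'.1 = t.1 ∨ t'.1 = t.2.1 ∨ t'.1 = t.2.2 := by
  by_contra hcon
  push Not at hcon
  obtain ⟨n1, n2, n3⟩ := hcon
  obtain ⟨p, q, s⟩ := t
  obtain ⟨a, b, d⟩ := t'
  simp only at n1 n2 n3
  have e1 := L.in_rot h
  have e2 := L.in_rot e1
  have f1 := L.in_rot h'
  simp only at e1 e2 f1
  obtain ⟨u1, u2, u3⟩ := L.ne3 (L.in_mem h)
  obtain ⟨v1, v2, v3⟩ := L.ne3 (L.in_mem h')
  have hsub : ({(p, q, s), (q, s, p), (s, p, q), (a, b, d)} : Finset (V × V × V)) ⊆ L.In z := by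
    intro x hx
    simp only [Finset.mem_insert, Finset.mem_singleton] at hx
    rcases hx with rfl | rfl | rfl | rfl <;> assumption
  have hc : ({(p, q, s), (q, s, p), (s, p, q), (a, b, d)} : Finset (V × V × V)).card = 4 := by
    rw [Finset.card_insert_of_notMem, Finset.card_insert_of_notMem,
      Finset.card_insert_of_notMem, Finset.card_singleton]
    · simp only [Finset.mem_singleton, Prod.mk.injEq]
      rintro ⟨h1, _, _⟩
      exact n3 h1.symm
    · simp only [Finset.mem_insert, Finset.mem_singleton, Prod.mk.injEq]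
      rintro (⟨h1, _, _⟩ | ⟨h1, _, _⟩)
      · exact u2 h1
      · exact n2 h1.symm
    · simp only [Finset.mem_insert, Finset.mem_singleton, Prod.mk.injEq]
      rintro (⟨h1, _, _⟩ | ⟨h1, _, _⟩ | ⟨h1, _, _⟩)
      · exact u1 h1
      · exact u3 h1.symm
      · exact n1 h1.symm
  have h4 := Finset.card_le_card hsub
  rw [hc] at h4
  have := L.in_card_le hz
  omega

end Lay

end

end CPW
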