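import Pool.Agent.Helper46.CP.Disj

/-!
# Disjointness of the discs: link windings, generic points, final step
-/

namespace CPW

open Complex

noncomputable section

/-- generic points of open sets -/
theorem exists_gen (S : Finset (ℂ × ℂ)) (hS : ∀ x ∈ S, x.1 ≠ x.2) (U : Set ℂ) (hU : IsOpen U)
    (hne : U.Nonempty) : ∃ z ∈ U, ∀ x ∈ S, cr (x.1 - z) (x.2 - z) ≠ 0 := by
  classical
  induction S using Finset.induction_on generalizing U with
  | empty =>
    obtain ⟨z, hz⟩ := hne
    exact ⟨z, hz, fun x hx => absurd hx (Finset.notMem_empty x)⟩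
  | insert x S hx ih =>
    -- the good set for `x` inside `U` is open and nonempty
    have hxne : x.1 ≠ x.2 := hS x (Finset.mem_insert_self _ _)
    have hcont : Continuous (fun z : ℂ => cr (x.1 - z) (x.2 - z)) := by
      unfold cr
      fun_prop
    have hopen : IsOpen (U ∩ {z | cr (x.1 - z) (x.2 - z) ≠ 0}) :=
      hU.inter (isOpen_ne_fun hcont continuous_const)
    have hnonempty : (U ∩ {z | cr (x.1 - z) (x.2 - z) ≠ 0}).Nonempty := by
      obtain ⟨z0, hz0⟩ := hne
      by_cases h0 : cr (x.1 - z0) (x.2 - z0) = 0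
      · obtain ⟨ε, hε, hball⟩ := Metric.isOpen_iff.mp hU z0 hz0
        have hn : 0 < ‖x.2 - x.1‖ := by
          rw [norm_pos_iff]
          intro h
          exact hxne (by linear_combination -h)
        set t : ℝ := ε / (2 * ‖x.2 - x.1‖) with ht
        have htpos : 0 < t := by positivity
        refine ⟨z0 + (t : ℂ) * I * (x.2 - x.1), hball ?_, ?_⟩
        · rw [Metric.mem_ball, dist_eq_norm]
          have h1 : z0 + (t : ℂ) * I * (x.2 - x.1) - z0 = (t : ℂ) * I * (x.2 - x.1) := by ring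
          rw [h1, norm_mul, norm_mul, Complex.norm_real, Complex.norm_I, Real.norm_eq_abs,
            abs_of_pos htpos, mul_one, ht]
          field_simp
          linarith
        · have h2 : cr (x.1 - (z0 + (t : ℂ) * I * (x.2 - x.1)))
              (x.2 - (z0 + (t : ℂ) * I * (x.2 - x.1))) =
              cr (x.1 - z0) (x.2 - z0) + t * normSq (x.2 - x.1) := by
            unfold cr
            rw [Complex.normSq_apply]
            simp only [Complex.sub_re, Complex.sub_im, Complex.add_re, Complex.add_im,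
              Complex.mul_re, Complex.mul_im, Complex.ofReal_re, Complex.ofReal_im, Complex.I_re,
              Complex.I_im]
            ring
          show cr (x.1 - (z0 + (t : ℂ) * I * (x.2 - x.1)))
              (x.2 - (z0 + (t : ℂ) * I * (x.2 - x.1))) ≠ 0
          rw [h2, h0, zero_add]
          have : 0 < normSq (x.2 - x.1) := by
            rw [Complex.normSq_pos]
            intro h
            exact hxne (by linear_combination -h)
          positivity
      · exact ⟨z0, hz0, h0⟩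
    obtain ⟨z, hz, hz2⟩ := ih (fun y hy => hS y (Finset.mem_insert_of_mem hy)) _ hopen hnonempty
    refine ⟨z, hz.1, ?_⟩
    intro y hy
    rcases Finset.mem_insert.mp hy with rfl | hy
    · exact hz.2
    · exact hz2 y hy

namespace Lay

variable {V : Type*} [Fintype V] [DecidableEq V] (L : Lay V)

theorem exists_Gen (U : Set ℂ) (hU : IsOpen U) (hne : U.Nonempty) : ∃ z ∈ U, L.Gen z := by
  classical
  obtain ⟨z, hz, h⟩ := exists_gen (L.T.image (fun t => (L.c t.1, L.c t.2.1)))
    (by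
      intro x hx
      obtain ⟨t, ht, rfl⟩ := Finset.mem_image.mp hx
      obtain ⟨p, q, s⟩ := t
      exact L.cne ht) U hU hne
  refine ⟨z, hz, ?_⟩
  intro t ht
  exact h _ (Finset.mem_image_of_mem _ ht)

/-- angle at the first vertex of a triple -/
def A (t : V × V × V) : ℝ := th (L.c t.1) (L.c t.2.1) (L.c t.2.2)

theorem W_center (v : V) : L.W v (L.c v) = ∑ t ∈ L.Tv v, L.A t := by
  unfold W A
  refine Finset.sum_congr rfl ?_
  intro t ht
  rw [(L.mem_Tv.mp ht).2]

theorem A_pos {t : V × V × V} (h : t ∈ L.T) (ho : ¬ L.IsOut t) : 0 < L.A t :=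
  (th_pos (L.pos' h ho)).1

theorem A3_inner {t : V × V × V} (h : t ∈ L.T) (ho : ¬ L.IsOut t) :
    L.A t + L.A (t.2.1, t.2.2, t.1) + L.A (t.2.2, t.1, t.2.1) = Real.pi :=
  angle_sum (L.pos' h ho)

theorem A3_out {t : V × V × V} (ho : L.IsOut t) :
    L.A t + L.A (t.2.1, t.2.2, t.1) + L.A (t.2.2, t.1, t.2.1) = -Real.pi := by
  have h1 : L.area t < 0 := by rw [L.O_area ho]; exact L.O_neg
  have h2 : 0 < cr (L.c t.2.2 - L.c t.1) (L.c t.2.1 - L.c t.1) := by
    rw [cr_swap]
    unfold area at h1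
    linarith
  have h3 := angle_sum h2
  have e1 : cr (L.c t.2.1 - L.c t.1) (L.c t.2.2 - L.c t.1) ≠ 0 := h1.ne
  have e2 : cr (L.c t.2.2 - L.c t.2.1) (L.c t.1 - L.c t.2.1) ≠ 0 := by
    have : cr (L.c t.2.2 - L.c t.2.1) (L.c t.1 - L.c t.2.1) =
        cr (L.c t.2.1 - L.c t.1) (L.c t.2.2 - L.c t.1) := by
      unfold cr; simp only [Complex.sub_re, Complex.sub_im]; ring
    rw [this]; exact e1
  have e3 : cr (L.c t.1 - L.c t.2.2) (L.c t.2.1 - L.c t.2.2) ≠ 0 := by
    have : cr (L.c t.1 - L.c t.2.2) (L.c t.2.1 - L.c t.2.2) =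
        cr (L.c t.2.1 - L.c t.1) (L.c t.2.2 - L.c t.1) := by
      unfold cr; simp only [Complex.sub_re, Complex.sub_im]; ring
    rw [this]; exact e1
  have f1 := th_anti e1
  have f2 := th_anti e2
  have f3 := th_anti e3
  unfold A
  simp only
  linarith

theorem A_out_gt {t : V × V × V} (ho : L.IsOut t) : -Real.pi < L.A t ∧ L.A t < 0 := by
  have h1 : L.area t < 0 := by rw [L.O_area ho]; exact L.O_neg
  refine ⟨(th_lt _ _ _).2, ?_⟩
  have h2 : 0 < cr (L.c t.2.2 - L.c t.1) (L.c t.2.1 - L.c t.1) := by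
    rw [cr_swap]
    unfold area at h1
    linarith
  have h3 := (th_pos h2).1
  have e1 : cr (L.c t.2.1 - L.c t.1) (L.c t.2.2 - L.c t.1) ≠ 0 := h1.ne
  have f1 := th_anti e1
  unfold A
  linarith

/-- outer vertices -/
def OV (v : V) : Prop := v = L.O.1 ∨ v = L.O.2.1 ∨ v = L.O.2.2

theorem out_first {t : V × V × V} (h : L.IsOut t) : L.OV t.1 := by
  unfold OV
  rcases h with h | h | h
  · left; rw [← h]
  · right; right; rw [← h]
  · right; left; rw [← h]

open Classical in
theorem out_eq : L.T.filter (fun t => L.IsOut t) =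
    {L.O, (L.O.2.2, L.O.1, L.O.2.1), (L.O.2.1, L.O.2.2, L.O.1)} := by
  ext t
  rw [Finset.mem_filter, Finset.mem_insert, Finset.mem_insert, Finset.mem_singleton]
  constructor
  · rintro ⟨_, h⟩
    rcases h with h | h | h
    · left; rw [← h]
    · right; left; rw [← h]
    · right; right; rw [← h]
  · obtain ⟨⟨p, q, s⟩, hO⟩ : ∃ x, L.O = x := ⟨_, rfl⟩
    have hm : (p, q, s) ∈ L.T := hO ▸ L.hO
    unfold IsOut
    rw [hO]
    simp only
    rintro (h | h | h)
    · subst h
      exact ⟨hm, Or.inl rfl⟩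
    · subst h
      exact ⟨L.rot2 hm, Or.inr (Or.inl rfl)⟩
    · subst h
      exact ⟨L.rot _ _ _ hm, Or.inr (Or.inr rfl)⟩

open Classical in
theorem out_card3 : (L.T.filter (fun t => L.IsOut t)).card = 3 := by
  rw [L.out_eq]
  obtain ⟨⟨p, q, s⟩, hO⟩ : ∃ x, L.O = x := ⟨_, rfl⟩
  have hm : (p, q, s) ∈ L.T := hO ▸ L.hO
  obtain ⟨n1, n2, n3⟩ := L.ne3 hm
  rw [hO]
  simp only
  rw [Finset.card_insert_of_notMem, Finset.card_insert_of_notMem, Finset.card_singleton]
  · simp only [Finset.mem_singleton, Prod.mk.injEq]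
    rintro ⟨h, _, _⟩
    exact n2 h.symm
  · simp only [Finset.mem_insert, Finset.mem_singleton, Prod.mk.injEq]
    rintro (⟨h, _, _⟩ | ⟨h, _, _⟩)
    · exact n3 h.symm
    · exact n1 h

theorem A_total : 3 * ∑ t ∈ L.T, L.A t = Real.pi * (L.T.card - 6) := by
  classical
  have h1 : 3 * ∑ t ∈ L.T, L.A t =
      ∑ t ∈ L.T, (L.A t + L.A (t.2.1, t.2.2, t.1) + L.A (t.2.2, t.1, t.2.1)) := by
    rw [Finset.sum_add_distrib, Finset.sum_add_distrib]
    have h1 := L.sum_rot (fun a b c => L.A (a, b, c))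
    have h2 := L.sum_rot (fun a b c => L.A (b, c, a))
    beta_reduce at h1 h2
    have h3 : ∑ t ∈ L.T, L.A (t.1, t.2.1, t.2.2) = ∑ t ∈ L.T, L.A t := rfl
    rw [h3] at h1
    have h4 : ∑ t ∈ L.T, L.A (t.2.2, t.1, t.2.1) = ∑ t ∈ L.T, L.A (t.2.1, t.2.2, t.1) := h2
    rw [h4, h1]
    ring
  rw [h1, ← Finset.sum_filter_add_sum_filter_not L.T (fun t => L.IsOut t)]
  rw [Finset.sum_congr rfl (fun t ht => L.A3_out (Finset.mem_filter.mp ht).2)]
  rw [Finset.sum_congr (s₁ := L.T.filter (fun t => ¬ L.IsOut t)) rfl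
    (fun t ht => L.A3_inner (Finset.mem_filter.mp ht).1 (Finset.mem_filter.mp ht).2)]
  rw [Finset.sum_const, Finset.sum_const, nsmul_eq_mul, nsmul_eq_mul, L.out_card3]
  have h2 := Finset.card_filter_add_card_filter_not (s := L.T) (fun t => L.IsOut t)
  rw [L.out_card3] at h2
  have h3 : ((L.T.filter (fun t => ¬ L.IsOut t)).card : ℝ) = L.T.card - 3 := by
    rw [← h2]; push_cast; ring
  rw [h3]
  push_cast
  ring

theorem W_inner_center {v : V} (hv : ¬ L.OV v) : L.W v (L.c v) = 2 * Real.pi := by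
  have h1 := L.hang v (fun h => hv (Or.inl h)) (fun h => hv (Or.inr (Or.inl h)))
    (fun h => hv (Or.inr (Or.inr h)))
  exact h1

theorem W_sum : ∑ v : V, L.W v (L.c v) = 2 * Real.pi * (Fintype.card V - 3) := by
  have h1 : ∑ v : V, L.W v (L.c v) = ∑ t ∈ L.T, L.A t := by
    simp only [L.W_center]
    unfold Tv
    exact Finset.sum_fiberwise L.T (fun t => t.1) (fun t => L.A t)
  have h2 := L.A_total
  have h3 : (L.T.card : ℝ) = 6 * Fintype.card V - 12 := by
    have := L.hcard
    have h4 : ((L.T.card + 12 : ℕ) : ℝ) = ((6 * Fintype.card V : ℕ) : ℝ) := by rw [this]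
    push_cast at h4
    linarith
  rw [h3] at h2
  rw [h1]
  linarith

theorem W_out_gt {v : V} (hv : L.OV v) : -Real.pi < L.W v (L.c v) := by
  classical
  rw [L.W_center]
  -- the outer triple at `v`
  have hO := L.hO
  obtain ⟨⟨p, q, s⟩, hOe⟩ : ∃ x, L.O = x := ⟨_, rfl⟩
  rw [hOe] at hO
  obtain ⟨n1, n2, n3⟩ := L.ne3 hO
  have hex : ∃ t0 ∈ L.Tv v, L.IsOut t0 ∧ ∀ t ∈ L.Tv v, L.IsOut t → t = t0 := by
    have key : ∀ a b c : V, (a, b, c) ∈ L.T → L.IsOut (a, b, c) → a = v → a ≠ b → a ≠ c →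
        L.O = (a, b, c) ∨ L.O = (b, c, a) ∨ L.O = (c, a, b) →
        ∃ t0 ∈ L.Tv v, L.IsOut t0 ∧ ∀ t ∈ L.Tv v, L.IsOut t → t = t0 := by
      intro a b c hm ho ha hab hac hO3
      refine ⟨(a, b, c), L.mem_Tv.mpr ⟨hm, ha⟩, ho, ?_⟩
      rintro ⟨x, y, w⟩ ht hto
      have hx : x = a := (L.mem_Tv.mp ht).2.trans ha.symm
      subst hx
      unfold IsOut at hto
      simp only at hto
      rcases hO3 with h | h | h <;> rw [h] at hto <;>
        simp only [Prod.mk.injEq] at hto ⊢ <;> rcases hto with ⟨h1, h2, h3⟩ | ⟨h1, h2, h3⟩ | ⟨h1, h2, h3⟩ <;>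
        simp_all
    rcases hv with h | h | h
    · rw [hOe] at h
      exact key p q s hO (Or.inl hOe.symm) h.symm n1 n3.symm (Or.inl hOe)
    · rw [hOe] at h
      exact key q s p (L.rot _ _ _ hO) (Or.inr (Or.inr hOe.symm)) h.symm n2 n1.symm
        (Or.inr (Or.inr hOe))
    · rw [hOe] at h
      exact key s p q (L.rot2 hO) (Or.inr (Or.inl hOe.symm)) h.symm n3 n2.symm (Or.inr (Or.inl hOe))
  obtain ⟨t0, h0, ho, huniq⟩ := hex
  rw [← Finset.add_sum_erase _ _ h0]
  have h1 := (L.A_out_gt ho).1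
  have h2 : 0 ≤ ∑ t ∈ (L.Tv v).erase t0, L.A t := by
    refine Finset.sum_nonneg ?_
    intro t ht
    obtain ⟨a1, a2⟩ := Finset.mem_erase.mp ht
    refine (L.A_pos (L.mem_Tv.mp a2).1 ?_).le
    intro hto
    exact a1 (huniq t a2 hto)
  linarith

theorem W_out {v : V} (hv : L.OV v) : L.W v (L.c v) = 0 := by
  classical
  have hO := L.hO
  obtain ⟨⟨p, q, s⟩, hOe⟩ : ∃ x, L.O = x := ⟨_, rfl⟩
  rw [hOe] at hO
  obtain ⟨n1, n2, n3⟩ := L.ne3 hO
  have hint : ∀ x, ∃ k : ℤ, L.W x (L.c x) = 2 * Real.pi * k := by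
    intro x
    refine L.W_int x ?_
    intro t ht
    refine L.off1 (v := x) ?_ ht
    simpa using L.hr x
  have hpi := Real.pi_pos
  have hnn : ∀ x, L.OV x → 0 ≤ L.W x (L.c x) := by
    intro x hx
    obtain ⟨k, hk⟩ := hint x
    have h1 := L.W_out_gt hx
    rw [hk] at h1 ⊢
    have h2 : (-1 : ℝ) < k := by nlinarith
    have h3 : (-1 : ℤ) < k := by exact_mod_cast h2
    have h4 : (0 : ℤ) ≤ k := by omega
    have h5 : (0 : ℝ) ≤ k := by exact_mod_cast h4
    positivity
  have hsum := L.W_sum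
  have hsplit := Finset.sum_filter_add_sum_filter_not (Finset.univ : Finset V) (fun x => L.OV x)
    (fun x => L.W x (L.c x))
  have hset : (Finset.univ : Finset V).filter (fun x => L.OV x) = {p, q, s} := by
    ext x
    simp only [Finset.mem_filter, Finset.mem_univ, true_and, Finset.mem_insert,
      Finset.mem_singleton, OV, hOe]
  have hc3 : ({p, q, s} : Finset V).card = 3 := by
    rw [Finset.card_insert_of_notMem, Finset.card_insert_of_notMem, Finset.card_singleton]
    · simpa using n2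
    · simp only [Finset.mem_insert, Finset.mem_singleton]
      rintro (h | h)
      · exact n1 h
      · exact n3 h.symm
  have hin : ∑ x ∈ (Finset.univ : Finset V).filter (fun x => ¬ L.OV x), L.W x (L.c x) =
      2 * Real.pi * (Fintype.card V - 3) := by
    rw [Finset.sum_congr rfl (fun x hx => L.W_inner_center (Finset.mem_filter.mp hx).2)]
    rw [Finset.sum_const, nsmul_eq_mul]
    have h2 := Finset.card_filter_add_card_filter_not (s := (Finset.univ : Finset V))
      (fun x => L.OV x)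
    rw [hset, hc3, Finset.card_univ] at h2
    have h3 : (((Finset.univ : Finset V).filter (fun x => ¬ L.OV x)).card : ℝ) =
        Fintype.card V - 3 := by
      rw [← h2]; push_cast; ring
    rw [h3]
    ring
  rw [hin, hsum, hset] at hsplit
  have hz : ∑ x ∈ ({p, q, s} : Finset V), L.W x (L.c x) = 0 := by linarith
  have hmem : ∀ x ∈ ({p, q, s} : Finset V), L.OV x := by
    intro x hx
    rw [← hset] at hx
    exact (Finset.mem_filter.mp hx).2
  have hv' : v ∈ ({p, q, s} : Finset V) := by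
    rw [← hset]
    exact Finset.mem_filter.mpr ⟨Finset.mem_univ _, hv⟩
  exact (Finset.sum_eq_zero_iff_of_nonneg (fun x hx => hnn x (hmem x hx))).mp hz v hv'

theorem in_of_inner {v : V} (hv : ¬ L.OV v) {z : ℂ} (hz : L.Gen z)
    (hd : dist z (L.c v) < L.r v) : ∃ t ∈ L.In z, t.1 = v := by
  classical
  have h1 := L.vert v hz
  rw [L.W_const v hd, L.W_inner_center hv] at h1
  by_contra hcon
  push Not at hcon
  have h2 : ∑ t ∈ L.Tv v, L.F z t = 0 := by
    refine Finset.sum_eq_zero ?_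
    intro t ht
    obtain ⟨a1, a2⟩ := L.mem_Tv.mp ht
    have a3 : ¬ L.IsOut t := fun h => hv (a2 ▸ L.out_first h)
    rcases L.F_inner hz a1 a3 with h | h
    · exact h
    · exact absurd a2 (hcon t (Finset.mem_filter.mpr ⟨a1, a3, h⟩))
  have := Real.pi_pos
  linarith

theorem in_of_out {v : V} (hv : L.OV v) {z : ℂ} (hz : L.Gen z)
    (hd : dist z (L.c v) < L.r v) (hne : (L.In z).Nonempty) : ∃ t ∈ L.In z, t.1 = v := by
  classical
  have hpi := Real.pi_pos
  have hO : L.F z L.O < 0 := by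
    have h1 := L.in_card hz
    rw [L.out_card3] at h1
    have h2 : (0 : ℝ) < (L.In z).card := by exact_mod_cast hne.card_pos
    have h3 : 0 < 2 * Real.pi * (L.In z).card := by positivity
    push_cast at h1
    linarith
  have h1 := L.vert v hz
  rw [L.W_const v hd, L.W_out hv] at h1
  by_contra hcon
  push Not at hcon
  have h2 : ∀ t ∈ L.Tv v, L.F z t ≤ 0 := by
    intro t ht
    obtain ⟨a1, a2⟩ := L.mem_Tv.mp ht
    by_cases a3 : L.IsOut t
    · rw [L.O_F z a3]; exact hO.le
    · rcases L.F_inner hz a1 a3 with h | h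
      · exact h.le
      · exact absurd a2 (hcon t (Finset.mem_filter.mpr ⟨a1, a3, h⟩))
  have h3 : ∃ t ∈ L.Tv v, L.F z t < 0 := by
    have hO' := L.hO
    obtain ⟨⟨p, q, s⟩, hOe⟩ : ∃ x, L.O = x := ⟨_, rfl⟩
    rw [hOe] at hO'
    rcases hv with h | h | h
    · rw [hOe] at h
      refine ⟨(p, q, s), L.mem_Tv.mpr ⟨hO', h.symm⟩, ?_⟩
      rw [L.O_F z (Or.inl hOe.symm)]; exact hO
    · rw [hOe] at h
      refine ⟨(q, s, p), L.mem_Tv.mpr ⟨L.rot _ _ _ hO', h.symm⟩, ?_⟩
      rw [L.O_F z (Or.inr (Or.inr hOe.symm))]; exact hO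
    · rw [hOe] at h
      refine ⟨(s, p, q), L.mem_Tv.mpr ⟨L.rot2 hO', h.symm⟩, ?_⟩
      rw [L.O_F z (Or.inr (Or.inl hOe.symm))]; exact hO
  have h4 : ∑ t ∈ L.Tv v, L.F z t < 0 := by
    obtain ⟨t0, ht0, hlt⟩ := h3
    calc ∑ t ∈ L.Tv v, L.F z t < ∑ t ∈ L.Tv v, (0 : ℝ) :=
          Finset.sum_lt_sum (fun t ht => h2 t ht) ⟨t0, ht0, hlt⟩
      _ = 0 := Finset.sum_const_zero
  linarith

theorem OV_adj {u v : V} (hu : L.OV u) (hv : L.OV v) (h : u ≠ v) :
    dist (L.c u) (L.c v) = L.r u + L.r v := by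
  have hO := L.hO
  obtain ⟨⟨p, q, s⟩, hOe⟩ : ∃ x, L.O = x := ⟨_, rfl⟩
  rw [hOe] at hO
  have d1 := L.hd _ _ _ hO
  have d2 := L.hd _ _ _ (L.rot _ _ _ hO)
  have d3 := L.hd _ _ _ (L.rot2 hO)
  unfold OV at hu hv
  rw [hOe] at hu hv
  simp only at hu hv
  rcases hu with rfl | rfl | rfl <;> rcases hv with rfl | rfl | rfl <;>
    first
    | exact absurd rfl h
    | exact d1
    | exact d2
    | exact d3
    | (rw [dist_comm, d1]; ring)
    | (rw [dist_comm, d2]; ring)
    | (rw [dist_comm, d3]; ring)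

/-- all discs are disjoint -/
theorem disj (u v : V) (h : u ≠ v) : L.r u + L.r v ≤ dist (L.c u) (L.c v) := by
  by_contra hcon
  push Not at hcon
  by_cases hu : L.OV u
  · by_cases hv : L.OV v
    · rw [L.OV_adj hu hv h] at hcon
      exact lt_irrefl _ hcon
    · -- symmetric case, treated below
      exact absurd hcon (by
        intro hcon
        have hU : IsOpen (Metric.ball (L.c u) (L.r u) ∩ Metric.ball (L.c v) (L.r v)) :=
          Metric.isOpen_ball.inter Metric.isOpen_ball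
        have hne : (Metric.ball (L.c u) (L.r u) ∩ Metric.ball (L.c v) (L.r v)).Nonempty := by
          by_contra hemp
          rw [Set.not_nonempty_iff_eq_empty, ← Set.disjoint_iff_inter_eq_empty] at hemp
          exact absurd hcon (not_lt.mpr (by
            exact (disjoint_ball_ball_iff (L.hr u) (L.hr v)).mp hemp))
        obtain ⟨z, ⟨z1, z2⟩, hz⟩ := L.exists_Gen _ hU hne
        obtain ⟨t, ht, htv⟩ := L.in_of_inner hv hz z2
        obtain ⟨t', ht', htu⟩ := L.in_of_out hu hz z1 ⟨t, ht⟩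
        have hm := L.in_mem ht
        obtain ⟨p, q, s⟩ := t
        simp only at htv
        rcases L.same hz ht ht' with h1 | h1 | h1
        · exact h (htu.symm.trans (h1.trans htv))
        · have h2 := L.hd _ _ _ hm
          have h3 : u = q := htu.symm.trans h1
          rw [← h3, htv] at h2
          rw [dist_comm] at h2
          linarith
        · have h2 := L.hd _ _ _ (L.rot2 hm)
          have h3 : u = s := htu.symm.trans h1
          rw [← h3, htv] at h2
          linarith)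
  · have hU : IsOpen (Metric.ball (L.c u) (L.r u) ∩ Metric.ball (L.c v) (L.r v)) :=
      Metric.isOpen_ball.inter Metric.isOpen_ball
    have hne : (Metric.ball (L.c u) (L.r u) ∩ Metric.ball (L.c v) (L.r v)).Nonempty := by
      by_contra hemp
      rw [Set.not_nonempty_iff_eq_empty, ← Set.disjoint_iff_inter_eq_empty] at hemp
      exact absurd hcon (not_lt.mpr (by
        exact (disjoint_ball_ball_iff (L.hr u) (L.hr v)).mp hemp))
    obtain ⟨z, ⟨z1, z2⟩, hz⟩ := L.exists_Gen _ hU hne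
    obtain ⟨t, ht, htu⟩ := L.in_of_inner hu hz z1
    have hex : ∃ t' ∈ L.In z, t'.1 = v := by
      by_cases hv : L.OV v
      · exact L.in_of_out hv hz z2 ⟨t, ht⟩
      · exact L.in_of_inner hv hz z2
    obtain ⟨t', ht', htv⟩ := hex
    have hm := L.in_mem ht
    obtain ⟨p, q, s⟩ := t
    simp only at htu
    rcases L.same hz ht ht' with h1 | h1 | h1
    · exact h ((htv.symm.trans (h1.trans htu)).symm)
    · have h2 := L.hd _ _ _ hm
      have h3 : v = q := htv.symm.trans h1
      rw [← h3, htu] at h2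
      linarith
    · have h2 := L.hd _ _ _ (L.rot2 hm)
      have h3 : v = s := htv.symm.trans h1
      rw [← h3, htu] at h2
      rw [dist_comm] at h2
      linarith

end Lay

end

end CPW
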