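import Pool.Agent.Helper46.CP.Ring
import Pool.Agent.Helper46.CP.DISJ

/-!
# `CP.ST_RINGL`
-/

namespace CPW

open Complex CP

noncomputable section

/-- squared distance of two points seen at angle `σ` -/
theorem dist_sq {u : ℂ} (hu : ‖u‖ = 1) (A B σ : ℝ) :
    ‖(A : ℂ) * u - (B : ℂ) * (u * exp ((σ : ℝ) * I))‖ ^ 2 = A ^ 2 + B ^ 2 - 2 * A * B * Real.cos σ := by
  have h1 : (A : ℂ) * u - (B : ℂ) * (u * exp ((σ : ℝ) * I)) =
      u * ((A : ℂ) - (B : ℂ) * exp ((σ : ℝ) * I)) := by ring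
  rw [h1, norm_mul, hu, one_mul, ← Complex.normSq_eq_norm_sq, Complex.normSq_apply]
  simp only [Complex.sub_re, Complex.sub_im, Complex.ofReal_re, Complex.ofReal_im,
    Complex.re_ofReal_mul, Complex.im_ofReal_mul, Complex.exp_ofReal_mul_I_re,
    Complex.exp_ofReal_mul_I_im]
  nlinarith [Real.sin_sq_add_cos_sq σ]

theorem cos_half (σ : ℝ) : Real.cos σ = 1 - 2 * Real.sin (σ / 2) ^ 2 := by
  have h := Real.cos_sq (σ / 2)
  have h2 := Real.sin_sq (σ / 2)
  have h3 : 2 * (σ / 2) = σ := by ring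
  rw [h3] at h
  linarith

theorem ff_le {R x y σ : ℝ} (hR : 0 < R) (hx : 0 < x) (hy : 0 < y)
    (h : (x + y) ^ 2 ≤ (R + x) ^ 2 + (R + y) ^ 2 - 2 * (R + x) * (R + y) * Real.cos σ) :
    x / (R + x) * (y / (R + y)) ≤ Real.sin (σ / 2) ^ 2 := by
  rw [cos_half] at h
  rw [div_mul_div_comm, div_le_iff₀ (by positivity)]
  nlinarith

theorem ff_eq {R x y σ : ℝ} (hR : 0 < R) (hx : 0 < x) (hy : 0 < y)
    (h : (x + y) ^ 2 = (R + x) ^ 2 + (R + y) ^ 2 - 2 * (R + x) * (R + y) * Real.cos σ) :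
    x / (R + x) * (y / (R + y)) = Real.sin (σ / 2) ^ 2 := by
  rw [cos_half] at h
  rw [div_mul_div_comm, div_eq_iff (by positivity)]
  nlinarith

theorem st_RINGL : ST_RINGL := by
  classical
  intro Δ
  refine ⟨max 1 (1 / eps Δ Δ), le_max_left _ _, ?_⟩
  intro D V F _ _ _ m o R z hT hR hZ hdis v hv hdg d0 hd0
  set S : Finset D := Finset.univ.filter (fun d => m.vt d = v) with hS
  have hSmem : ∀ d, d ∈ S ↔ m.vt d = v := by
    intro d; simp [hS]
  have hScard : S.card ≤ Δ := by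
    refine le_trans (le_of_eq ?_) hdg
    rw [hS]
    unfold LM.dg
    congr
  let n : Equiv.Perm D := m.rot⁻¹
  have hn : ∀ d ∈ S, n d ∈ S := by
    intro d hd
    rw [hSmem] at hd ⊢
    rw [← hd, ← m.vt_rot (n d)]
    congr 1
    exact Equiv.apply_symm_apply m.rot d
  have hv2 : ∀ d, m.v1 (n d) = m.v2 d := by
    intro d
    have h1 : m.rot (m.opp (m.face (m.face d))) = d := hT.f3 d
    have h2 : n d = m.opp (m.face (m.face d)) := by
      change m.rot⁻¹ d = _
      rw [Equiv.Perm.inv_eq_iff_eq]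
      exact h1.symm
    rw [v1_eq, h2, m.opp_opp]
    rfl
  have hv12 : ∀ d, m.v1 d ≠ m.v2 d := by
    intro d
    have := hT.noloop (m.face d)
    rw [← v1_eq] at this
    exact this
  have hne : ∀ d ∈ S, n d ≠ d := by
    intro d _ h
    have h1 := hv2 d
    rw [h] at h1
    exact hv12 d h1
  have hfc : ∀ d ∈ S, m.fc d ≠ m.fc o := by
    intro d hd hfd
    rw [hSmem] at hd
    have : m.outer o (m.vt d) := by
      rcases hT.fib o d hfd with h | h | h
      · left; rw [h]
      · right; left; rw [h]; rfl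
      · right; right; rw [h]; rfl
    exact hv (hd ▸ this)
  have hdist : ∀ d, ‖z (m.v1 d) - z (m.vt d)‖ = R (m.vt d) + R (m.v1 d) := by
    intro d
    rw [v1_eq]
    exact hZ.dist d
  have hRv := hR.pos v
  let u : D → ℂ := fun d => (z (m.v1 d) - z v) / ((R v + R (m.v1 d) : ℝ) : ℂ)
  have hA : ∀ d, 0 < R v + R (m.v1 d) := fun d => by
    have := hR.pos (m.v1 d); linarith
  have hAc : ∀ d, ((R v + R (m.v1 d) : ℝ) : ℂ) ≠ 0 := fun d => by
    exact_mod_cast (hA d).ne'
  have hu1 : ∀ d ∈ S, ‖u d‖ = 1 := by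
    intro d hd
    rw [hSmem] at hd
    have h1 := hdist d
    rw [hd] at h1
    simp only [u]
    rw [norm_div, h1, Complex.norm_real, Real.norm_eq_abs, abs_of_pos (hA d),
      div_self (hA d).ne']
  have hzu : ∀ d, z (m.v1 d) = z v + ((R v + R (m.v1 d) : ℝ) : ℂ) * u d := by
    intro d
    simp only [u]
    rw [mul_div_cancel₀ _ (hAc d)]
    ring
  have hun : ∀ d ∈ S, u (n d) = u d * exp ((m.angd R d : ℝ) * I) := by
    intro d hd
    have h1 := hZ.ang d (hfc d hd)
    rw [hSmem] at hd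
    rw [hd] at h1
    have a1 := hAc d
    have a2 := hAc (n d)
    simp only [u]
    rw [hv2 d] at a2 ⊢
    rw [div_eq_iff a2]
    have h2 : (z (m.v2 d) - z v) * ((R v + R (m.v1 d) : ℝ) : ℂ) =
        ((z (m.v1 d) - z v) / ((R v + R (m.v1 d) : ℝ) : ℂ) * exp ((m.angd R d : ℝ) * I) *
          ((R v + R (m.v2 d) : ℝ) : ℂ)) * ((R v + R (m.v1 d) : ℝ) : ℂ) := by
      rw [h1]
      field_simp
    exact mul_right_cancel₀ a1 h2
  have hupow : ∀ a ∈ S, ∀ k : ℕ, u ((n ^ k) a) =
      u a * exp (((∑ i ∈ Finset.range k, m.angd R ((n ^ i) a) : ℝ)) * I) := by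
    intro a ha k
    induction k with
    | zero => simp
    | succ k ih =>
      have h1 : (n ^ (k + 1)) a = n ((n ^ k) a) := by
        rw [pow_succ', Equiv.Perm.mul_apply]
      rw [h1, hun _ (pow_mem n S hn ha k), ih, Finset.sum_range_succ]
      push_cast
      rw [add_mul, Complex.exp_add]
      ring
  have hαpos : ∀ d, 0 < m.angd R d ∧ m.angd R d < Real.pi := fun d =>
    ang_pos (hR.pos _) (hR.pos _) (hR.pos _)
  have hsum : ∑ d ∈ S, m.angd R d = 2 * Real.pi := by
    have := hR.sum v hv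
    rw [← this, hS]
  -- transitivity
  have ht : ∀ B ⊆ S, B.Nonempty → (∀ d ∈ B, n d ∈ B) → B = S := by
    intro B hBS hBn hBc
    have h1 : ∏ d ∈ B, u (n d) = ∏ d ∈ B, u d := by
      have hmap : B.image n = B := by
        refine Finset.eq_of_subset_of_card_le ?_ ?_
        · intro x hx
          obtain ⟨y, hy, rfl⟩ := Finset.mem_image.mp hx
          exact hBc y hy
        · rw [Finset.card_image_of_injective _ n.injective]
      calc ∏ d ∈ B, u (n d) = ∏ d ∈ B.image n, u d :=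
            (Finset.prod_image (fun a _ b _ h => n.injective h)).symm
        _ = ∏ d ∈ B, u d := by rw [hmap]
    rw [Finset.prod_congr rfl (fun d hd => hun d (hBS hd)), Finset.prod_mul_distrib] at h1
    have h2 : ∏ d ∈ B, u d ≠ 0 := by
      rw [Finset.prod_ne_zero_iff]
      intro d hd h
      have := hu1 d (hBS hd)
      rw [h, norm_zero] at this
      exact zero_ne_one this
    have h3 : ∏ d ∈ B, exp ((m.angd R d : ℝ) * I) = 1 := by
      have h4 : (∏ d ∈ B, u d) * ∏ d ∈ B, exp ((m.angd R d : ℝ) * I) = (∏ d ∈ B, u d) * 1 := by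
        rw [mul_one]; exact h1
      exact mul_left_cancel₀ h2 h4
    rw [← Complex.exp_sum, ← Finset.sum_mul, Complex.exp_eq_one_iff] at h3
    obtain ⟨k, hk⟩ := h3
    have h5 : ∑ d ∈ B, m.angd R d = 2 * Real.pi * k := by
      have h6 := congrArg Complex.im hk
      rw [← Complex.ofReal_sum, Complex.mul_I_im, Complex.ofReal_re] at h6
      rw [h6]
      simp
      ring
    have h6 : 0 < ∑ d ∈ B, m.angd R d := Finset.sum_pos (fun d _ => (hαpos d).1) hBn
    have hpi := Real.pi_pos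
    have h7 : 1 ≤ k := by
      rw [h5] at h6
      have : (0 : ℝ) < k := by
        by_contra hc
        push Not at hc
        nlinarith
      have : (0 : ℤ) < k := by exact_mod_cast this
      omega
    have h8 : 2 * Real.pi ≤ ∑ d ∈ B, m.angd R d := by
      rw [h5]
      have : (1 : ℝ) ≤ k := by exact_mod_cast h7
      nlinarith
    by_contra hcon
    obtain ⟨x, hx1, hx2⟩ := Finset.exists_of_ssubset (Finset.ssubset_iff_subset_ne.mpr ⟨hBS, hcon⟩)
    have h9 : ∑ d ∈ B, m.angd R d < ∑ d ∈ S, m.angd R d :=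
      Finset.sum_lt_sum_of_subset hBS hx1 hx2 (hαpos x).1 (fun y _ _ => (hαpos y).1.le)
    rw [hsum] at h9
    linarith
  let f : D → ℝ := fun d => R (m.v1 d) / (R v + R (m.v1 d))
  have hf : ∀ d ∈ S, 0 < f d ∧ f d < 1 := by
    intro d _
    have h1 := hR.pos (m.v1 d)
    have h2 := hA d
    refine ⟨div_pos h1 h2, ?_⟩
    rw [div_lt_one h2]
    linarith
  have hff : ∀ d ∈ S, f d * f (n d) = Real.sin (m.angd R d / 2) ^ 2 := by
    intro d hd
    have h1 := hdist (m.face d)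
    have e1 : m.v1 (m.face d) = m.v2 d := rfl
    have e2 : m.vt (m.face d) = m.v1 d := rfl
    rw [e1, e2] at h1
    have h2 := dist_sq (hu1 d hd) (R v + R (m.v1 d)) (R v + R (m.v2 d)) (m.angd R d)
    have h3 : ((R v + R (m.v1 d) : ℝ) : ℂ) * u d -
        ((R v + R (m.v2 d) : ℝ) : ℂ) * (u d * exp ((m.angd R d : ℝ) * I)) =
        z (m.v1 d) - z (m.v2 d) := by
      rw [← hun d hd, hzu d]
      have h4 := hzu (n d)
      rw [hv2 d] at h4
      rw [h4]
      ring
    rw [h3, norm_sub_rev, h1] at h2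
    have h4 := ff_eq hRv (hR.pos (m.v1 d)) (hR.pos (m.v2 d)) h2
    simp only [f]
    rw [hv2 d]
    exact h4
  have hα : ∀ d ∈ S, m.angd R d ≤ Real.pi * Real.sqrt (f d * f (n d)) := by
    intro d hd
    obtain ⟨h1, h2⟩ := hαpos d
    have hpi := Real.pi_pos
    rw [hff d hd, Real.sqrt_sq (Real.sin_nonneg_of_nonneg_of_le_pi (by linarith) (by linarith))]
    have h3 := Real.mul_le_sin (x := m.angd R d / 2) (by linarith) (by linarith)
    have h4 : m.angd R d = Real.pi * (2 / Real.pi * (m.angd R d / 2)) := by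
      field_simp
    calc m.angd R d = Real.pi * (2 / Real.pi * (m.angd R d / 2)) := h4
      _ ≤ _ := mul_le_mul_of_nonneg_left h3 hpi.le
  have hdis2 : ∀ a ∈ S, ∀ k : ℕ, (n ^ k) a ≠ a →
      2 * Real.sqrt (f a * f ((n ^ k) a)) ≤ ∑ i ∈ Finset.range k, m.angd R ((n ^ i) a) := by
    intro a ha k hk
    set b := (n ^ k) a with hb
    set σ := ∑ i ∈ Finset.range k, m.angd R ((n ^ i) a) with hσ
    have hbS : b ∈ S := pow_mem n S hn ha k
    have h1 : m.v1 b ≠ m.v1 a := by
      intro h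
      apply hk
      rw [hSmem] at ha hbS
      exact tri_inj m hT (hbS.trans ha.symm) h
    have h2 := hdis (m.v1 a) (m.v1 b) h1.symm
    have h3 := dist_sq (hu1 a ha) (R v + R (m.v1 a)) (R v + R (m.v1 b)) σ
    have h4 : ((R v + R (m.v1 a) : ℝ) : ℂ) * u a -
        ((R v + R (m.v1 b) : ℝ) : ℂ) * (u a * exp ((σ : ℝ) * I)) = z (m.v1 a) - z (m.v1 b) := by
      rw [← hupow a ha k, hzu a, hzu b]
      ring
    rw [h4] at h3
    have h5 : (R (m.v1 a) + R (m.v1 b)) ^ 2 ≤ ‖z (m.v1 a) - z (m.v1 b)‖ ^ 2 := by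
      have := hR.pos (m.v1 a)
      have := hR.pos (m.v1 b)
      gcongr
    rw [h3] at h5
    have h6 := ff_le hRv (hR.pos (m.v1 a)) (hR.pos (m.v1 b)) h5
    have h7 : Real.sqrt (f a * f b) ≤ |Real.sin (σ / 2)| := by
      rw [← Real.sqrt_sq_eq_abs]
      exact Real.sqrt_le_sqrt h6
    have h8 : 0 ≤ σ := Finset.sum_nonneg (fun i _ => (hαpos _).1.le)
    have h9 : |Real.sin (σ / 2)| ≤ σ / 2 := by
      have := Real.abs_sin_le_abs (x := σ / 2)
      rwa [abs_of_nonneg (show 0 ≤ σ / 2 by linarith)] at this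
    linarith
  have hfin := ring_abs n S Δ hScard hn hne ht f (m.angd R) hf hα hsum hdis2 d0 ((hSmem d0).mpr hd0)
  -- conclusion
  rw [← v1_eq]
  have hx := hR.pos (m.v1 d0)
  by_cases he : 0 < eps Δ Δ
  · have h1 : eps Δ Δ * (R v + R (m.v1 d0)) ≤ R (m.v1 d0) := by
      have h2 : eps Δ Δ ≤ R (m.v1 d0) / (R v + R (m.v1 d0)) := hfin
      rwa [le_div_iff₀ (hA d0)] at h2
    have h2 : eps Δ Δ * R v ≤ R (m.v1 d0) := by nlinarith
    have h3 : R v ≤ 1 / eps Δ Δ * R (m.v1 d0) := by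
      rw [div_mul_eq_mul_div, one_mul, le_div_iff₀ he]
      linarith
    exact h3.trans (mul_le_mul_of_nonneg_right (le_max_right _ _) hx.le)
  · exfalso
    apply he
    have hΔ : 0 < Δ := by
      have : 0 < S.card := Finset.card_pos.mpr ⟨d0, (hSmem d0).mpr hd0⟩
      omega
    have hΔ' : (0 : ℝ) < Δ := by exact_mod_cast hΔ
    have : ∀ k, 0 < eps Δ k := by
      intro k
      induction k with
      | zero => exact pow_pos (by positivity) 2
      | succ k ihk =>
        have : eps Δ (k + 1) = (eps Δ k / (Real.pi * Δ)) ^ 2 := rfl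
        rw [this]
        have := Real.pi_pos
        positivity
    exact this Δ

end

end CPW
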