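import Pool.Agent.Helper46.CP.Tri

/-!
# Ring lemma, abstract form
-/

namespace CPW

open Finset

noncomputable section

/-- thresholds -/
def eps (Δ : ℕ) : ℕ → ℝ
  | 0 => (2 / (Δ : ℝ)) ^ 2
  | j + 1 => (eps Δ j / (Real.pi * Δ)) ^ 2

variable {D : Type} [DecidableEq D] (n : Equiv.Perm D) (S : Finset D)

theorem pow_mem (hn : ∀ d ∈ S, n d ∈ S) {a : D} (ha : a ∈ S) (i : ℕ) : (n ^ i) a ∈ S := by
  induction i with
  | zero => simpa using ha
  | succ i ih =>
    rw [pow_succ', Equiv.Perm.mul_apply]
    exact hn _ ih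

theorem run (hn : ∀ d ∈ S, n d ∈ S)
    (ht : ∀ B ⊆ S, B.Nonempty → (∀ d ∈ B, n d ∈ B) → B = S)
    (B : Finset D) (hBS : B ⊆ S) (hB : B ≠ S) (h2 : 2 ≤ B.card) :
    ∃ a ∈ B, ∃ m : ℕ, m ≤ S.card ∧ (n ^ m) a ∈ B ∧ (n ^ m) a ≠ a ∧
      ∀ i < m, (n ^ i) a ∉ B ∨ (n ^ (i + 1)) a ∉ B := by
  classical
  have hBn : B.Nonempty := Finset.card_pos.mp (by omega)
  have h1 : ∃ a ∈ B, n a ∉ B := by
    by_contra hcon
    push Not at hcon
    exact hB (ht B hBS hBn hcon)
  obtain ⟨a, ha, hna⟩ := h1
  have haS := hBS ha
  -- some positive power returns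
  have hret : ∃ k, 1 ≤ k ∧ (n ^ k) a = a := by
    have hninj : ¬ Function.Injective (fun i : ℕ => (⟨(n ^ i) a, pow_mem n S hn haS i⟩ : S)) :=
      not_injective_infinite_finite _
    rw [Function.Injective] at hninj
    push Not at hninj
    obtain ⟨i, j, hij, hne⟩ := hninj
    have hij' : (n ^ i) a = (n ^ j) a := congrArg Subtype.val hij
    have key : ∀ i j : ℕ, i < j → (n ^ i) a = (n ^ j) a → ∃ k, 1 ≤ k ∧ (n ^ k) a = a := by
      intro i j hlt h
      refine ⟨j - i, by omega, ?_⟩
      have h3 : j = i + (j - i) := by omega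
      rw [h3, pow_add, Equiv.Perm.mul_apply] at h
      exact ((n ^ i).injective h).symm
    rcases lt_or_gt_of_ne hne with h | h
    · exact key i j h hij'
    · exact key j i h hij'.symm
  have hex : ∃ k, 1 ≤ k ∧ (n ^ k) a ∈ B := by
    obtain ⟨k, hk, hk2⟩ := hret
    exact ⟨k, hk, by rw [hk2]; exact ha⟩
  let m := Nat.find hex
  obtain ⟨hm1, hmB⟩ : 1 ≤ m ∧ (n ^ m) a ∈ B := Nat.find_spec hex
  have hmin : ∀ i, 1 ≤ i → i < m → (n ^ i) a ∉ B := by
    intro i hi him hiB
    exact Nat.find_min hex him ⟨hi, hiB⟩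
  have hm2 : m ≠ 1 := by
    intro h
    rw [h, pow_one] at hmB
    exact hna hmB
  refine ⟨a, ha, m, ?_, hmB, ?_, ?_⟩
  · -- the elements n^i a (1 ≤ i < m) are distinct and outside B
    have h3 : ((Finset.Ico 1 m).image (fun i => (n ^ i) a)) ⊆ S \ B := by
      intro x hx
      obtain ⟨i, hi, rfl⟩ := Finset.mem_image.mp hx
      rw [Finset.mem_Ico] at hi
      exact Finset.mem_sdiff.mpr ⟨pow_mem n S hn haS i, hmin i hi.1 hi.2⟩
    have h4 : ((Finset.Ico 1 m).image (fun i => (n ^ i) a)).card = m - 1 := by
      rw [Finset.card_image_of_injOn, Nat.card_Ico]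
      intro i hi j hj hij
      simp only [Finset.coe_Ico, Set.mem_Ico] at hi hj
      have key : ∀ i j : ℕ, 1 ≤ i → i < j → j < m → (n ^ i) a = (n ^ j) a → False := by
        intro i j h1 hlt hjm h
        have h3 : j = i + (j - i) := by omega
        rw [h3, pow_add, Equiv.Perm.mul_apply] at h
        have h4 := (n ^ i).injective h
        exact hmin (j - i) (by omega) (by omega) (by rw [← h4]; exact ha)
      rcases lt_trichotomy i j with h | h | h
      · exact (key i j hi.1 h hj.2 hij).elim
      · exact h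
      · exact (key j i hj.1 h hi.2 hij.symm).elim
    have h5 := Finset.card_le_card h3
    rw [h4, Finset.card_sdiff_of_subset hBS] at h5
    have h6 := Finset.card_le_card hBS
    omega
  · intro hma
    -- then B = {a}
    have h3 : ∀ d ∈ S, ∃ i < m, (n ^ i) a = d := by
      have h4 : ((Finset.range m).image (fun i => (n ^ i) a)) = S := by
        refine ht _ ?_ ⟨a, Finset.mem_image.mpr ⟨0, Finset.mem_range.mpr (by omega), by simp⟩⟩ ?_
        · intro x hx
          obtain ⟨i, _, rfl⟩ := Finset.mem_image.mp hx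
          exact pow_mem n S hn haS i
        · intro x hx
          obtain ⟨i, hi, rfl⟩ := Finset.mem_image.mp hx
          rw [Finset.mem_range] at hi
          by_cases h5 : i + 1 < m
          · refine Finset.mem_image.mpr ⟨i + 1, Finset.mem_range.mpr h5, ?_⟩
            rw [pow_succ', Equiv.Perm.mul_apply]
          · refine Finset.mem_image.mpr ⟨0, Finset.mem_range.mpr (by omega), ?_⟩
            have h6 : m = i + 1 := by omega
            rw [h6, pow_succ', Equiv.Perm.mul_apply] at hma
            rw [hma]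
            simp
      intro d hd
      rw [← h4] at hd
      obtain ⟨i, hi, h⟩ := Finset.mem_image.mp hd
      exact ⟨i, Finset.mem_range.mp hi, h⟩
    have h5 : B ⊆ {a} := by
      intro x hx
      obtain ⟨i, hi, rfl⟩ := h3 x (hBS hx)
      by_cases h6 : i = 0
      · rw [h6]; simp
      · exact absurd hx (hmin i (by omega) hi)
    have h6 := Finset.card_le_card h5
    rw [Finset.card_singleton] at h6
    omega
  · intro i hi
    by_cases h6 : i = 0
    · right
      rw [h6, zero_add, pow_one]
      exact hna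
    · left
      exact hmin i (by omega) hi

theorem ring_abs (Δ : ℕ) (hcard : S.card ≤ Δ) (hn : ∀ d ∈ S, n d ∈ S)
    (hne : ∀ d ∈ S, n d ≠ d)
    (ht : ∀ B ⊆ S, B.Nonempty → (∀ d ∈ B, n d ∈ B) → B = S) (f α : D → ℝ)
    (hf : ∀ d ∈ S, 0 < f d ∧ f d < 1) (hα : ∀ d ∈ S, α d ≤ Real.pi * Real.sqrt (f d * f (n d)))
    (hsum : ∑ d ∈ S, α d = 2 * Real.pi)
    (hdis : ∀ a ∈ S, ∀ m : ℕ, (n ^ m) a ≠ a →
      2 * Real.sqrt (f a * f ((n ^ m) a)) ≤ ∑ i ∈ Finset.range m, α ((n ^ i) a)) :
    ∀ d ∈ S, eps Δ Δ ≤ f d := by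
  classical
  have hpi := Real.pi_pos
  have hSn : S.Nonempty := by
    by_contra h
    rw [Finset.not_nonempty_iff_eq_empty] at h
    rw [h, Finset.sum_empty] at hsum
    linarith
  have hS0 : 0 < S.card := hSn.card_pos
  have hΔ1 : 1 ≤ Δ := by omega
  have hΔ : (1 : ℝ) ≤ Δ := by exact_mod_cast hΔ1
  have hcard' : (S.card : ℝ) ≤ Δ := by exact_mod_cast hcard
  -- first step
  obtain ⟨d0, hd0, h0⟩ : ∃ d ∈ S, 2 * Real.pi / Δ ≤ α d := by
    by_contra hcon
    push Not at hcon
    have h1 : ∑ d ∈ S, α d < ∑ d ∈ S, 2 * Real.pi / Δ := Finset.sum_lt_sum_of_nonempty hSn hcon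
    rw [hsum, Finset.sum_const, nsmul_eq_mul] at h1
    have h2 : (S.card : ℝ) * (2 * Real.pi / Δ) ≤ 2 * Real.pi := by
      rw [mul_div_assoc', div_le_iff₀ (by linarith)]
      nlinarith
    linarith
  have h1 : 2 / (Δ : ℝ) ≤ Real.sqrt (f d0 * f (n d0)) := by
    have h2 := h0.trans (hα d0 hd0)
    have h3 : 2 * Real.pi / Δ = Real.pi * (2 / Δ) := by ring
    rw [h3] at h2
    exact le_of_mul_le_mul_left h2 hpi
  have h2 : eps Δ 0 ≤ f d0 * f (n d0) := by
    have h3 : 0 ≤ f d0 * f (n d0) :=
      mul_nonneg (hf _ hd0).1.le (hf _ (hn _ hd0)).1.le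
    have h4 : (2 / (Δ : ℝ)) ^ 2 ≤ Real.sqrt (f d0 * f (n d0)) ^ 2 := by
      have : 0 ≤ 2 / (Δ : ℝ) := by positivity
      gcongr
    rw [Real.sq_sqrt h3] at h4
    exact h4
  have hmain : ∀ j : ℕ, min S.card (j + 2) ≤ (S.filter (fun d => eps Δ j ≤ f d)).card := by
    intro j
    induction j with
    | zero =>
      have h3 : ({d0, n d0} : Finset D) ⊆ S.filter (fun d => eps Δ 0 ≤ f d) := by
        intro x hx
        obtain ⟨a1, a2⟩ := hf _ hd0
        obtain ⟨b1, b2⟩ := hf _ (hn _ hd0)
        rw [Finset.mem_insert, Finset.mem_singleton] at hx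
        rcases hx with rfl | rfl
        · exact Finset.mem_filter.mpr ⟨hd0, by nlinarith⟩
        · exact Finset.mem_filter.mpr ⟨hn _ hd0, by nlinarith⟩
      have h4 := Finset.card_le_card h3
      rw [Finset.card_pair (hne _ hd0).symm] at h4
      omega
    | succ j ih =>
      set B := S.filter (fun d => eps Δ j ≤ f d) with hBdef
      have hBS : B ⊆ S := Finset.filter_subset _ _
      have hBn : B.Nonempty := by
        apply Finset.card_pos.mp
        omega
      have hej : 0 ≤ eps Δ j := by
        cases j with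
        | zero => exact sq_nonneg _
        | succ j => exact sq_nonneg _
      have hej1 : eps Δ j ≤ 1 := by
        obtain ⟨x, hx⟩ := hBn
        obtain ⟨x1, x2⟩ := Finset.mem_filter.mp hx
        linarith [(hf x x1).2]
      have hpD : 1 ≤ Real.pi * Δ := by nlinarith [Real.pi_gt_three]
      have hmono : eps Δ (j + 1) ≤ eps Δ j := by
        have h3 : eps Δ (j + 1) = (eps Δ j / (Real.pi * Δ)) ^ 2 := rfl
        rw [h3]
        have h4 : eps Δ j / (Real.pi * Δ) ≤ eps Δ j := div_le_self hej hpD
        have h5 : 0 ≤ eps Δ j / (Real.pi * Δ) := by positivity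
        nlinarith
      have hsub : B ⊆ S.filter (fun d => eps Δ (j + 1) ≤ f d) := by
        intro x hx
        obtain ⟨x1, x2⟩ := Finset.mem_filter.mp hx
        exact Finset.mem_filter.mpr ⟨x1, hmono.trans x2⟩
      by_cases hB : B = S
      · have h3 := Finset.card_le_card hsub
        rw [hB] at h3
        exact (min_le_left _ _).trans h3
      · have hlt : B.card < S.card := Finset.card_lt_card (lt_of_le_of_ne hBS hB)
        have h2B : 2 ≤ B.card := by omega
        have hex : ∃ d ∈ S, d ∉ B ∧ eps Δ (j + 1) ≤ f d := by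
          by_contra hcon
          push Not at hcon
          obtain ⟨a, ha, m, hmS, hmB, hmne, hrun⟩ := run n S hn ht B hBS hB h2B
          have haS := hBS ha
          have hbound : ∀ i ∈ Finset.range m, α ((n ^ i) a) ≤ eps Δ j / Δ := by
            intro i hi
            rw [Finset.mem_range] at hi
            have p1 := pow_mem n S hn haS i
            have p2 := pow_mem n S hn haS (i + 1)
            have q1 := hf _ p1
            have q2 := hf _ p2
            have e1 : (n ^ (i + 1)) a = n ((n ^ i) a) := by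
              rw [pow_succ', Equiv.Perm.mul_apply]
            rw [e1] at q2 p2
            have h3 := hα _ p1
            have h4 : f ((n ^ i) a) * f (n ((n ^ i) a)) ≤ (eps Δ j / (Real.pi * Δ)) ^ 2 := by
              rcases hrun i hi with h5 | h5
              · have h6 := (hcon _ p1 h5).le
                have h7 : eps Δ (j + 1) = (eps Δ j / (Real.pi * Δ)) ^ 2 := rfl
                rw [h7] at h6
                nlinarith
              · rw [e1] at h5
                have h6 := (hcon _ p2 h5).le
                have h7 : eps Δ (j + 1) = (eps Δ j / (Real.pi * Δ)) ^ 2 := rfl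
                rw [h7] at h6
                nlinarith
            have h5 : Real.sqrt (f ((n ^ i) a) * f (n ((n ^ i) a))) ≤ eps Δ j / (Real.pi * Δ) := by
              rw [← Real.sqrt_sq (show 0 ≤ eps Δ j / (Real.pi * Δ) by positivity)]
              exact Real.sqrt_le_sqrt h4
            have h6 : Real.pi * (eps Δ j / (Real.pi * Δ)) = eps Δ j / Δ := by
              field_simp
            rw [← h6]
            exact h3.trans (mul_le_mul_of_nonneg_left h5 hpi.le)
          have hs := Finset.sum_le_sum hbound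
          rw [Finset.sum_const, Finset.card_range, nsmul_eq_mul] at hs
          have h3 : (m : ℝ) * (eps Δ j / Δ) ≤ eps Δ j := by
            have h4 : (m : ℝ) ≤ Δ := by exact_mod_cast hmS.trans hcard
            rw [mul_div_assoc', div_le_iff₀ (by linarith)]
            nlinarith
          have h4 := hdis a haS m hmne
          have h5 : eps Δ j ≤ Real.sqrt (f a * f ((n ^ m) a)) := by
            obtain ⟨_, u1⟩ := Finset.mem_filter.mp ha
            obtain ⟨_, u2⟩ := Finset.mem_filter.mp hmB
            rw [← Real.sqrt_sq hej]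
            refine Real.sqrt_le_sqrt ?_
            rw [sq]
            exact mul_le_mul u1 u2 hej (hej.trans u1)
          have h6 : 0 < eps Δ j := by
            -- positivity of thresholds
            have : ∀ k, 0 < eps Δ k := by
              intro k
              induction k with
              | zero => exact pow_pos (by positivity) 2
              | succ k ihk =>
                have : eps Δ (k + 1) = (eps Δ k / (Real.pi * Δ)) ^ 2 := rfl
                rw [this]
                positivity
            exact this j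
          linarith
        obtain ⟨d, hd, hdB, hde⟩ := hex
        have h3 : insert d B ⊆ S.filter (fun d => eps Δ (j + 1) ≤ f d) := by
          intro x hx
          rcases Finset.mem_insert.mp hx with rfl | hx
          · exact Finset.mem_filter.mpr ⟨hd, hde⟩
          · exact hsub hx
        have h4 := Finset.card_le_card h3
        rw [Finset.card_insert_of_notMem hdB] at h4
        omega
  intro d hd
  have h3 := hmain Δ
  have h4 : min S.card (Δ + 2) = S.card := min_eq_left (by omega)
  rw [h4] at h3
  have h5 : S.filter (fun d => eps Δ Δ ≤ f d) = S :=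
    Finset.eq_of_subset_of_card_le (Finset.filter_subset _ _) h3
  rw [← h5] at hd
  exact (Finset.mem_filter.mp hd).2

end

end CPW
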