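import Mathlib

/-!
# Winding of a triangle around a point (elementary form)
-/

namespace CPW

open Complex

noncomputable section

/-- cross product -/
def cr (x y : ℂ) : ℝ := x.re * y.im - x.im * y.re

/-- the angle at `z` from `a` to `b` -/
def th (z a b : ℂ) : ℝ := arg ((b - z) / (a - z))

theorem im_div (x y : ℂ) : (y / x).im = cr x y / normSq x := by
  rw [Complex.div_im, cr]
  ring

theorem cr_swap (x y : ℂ) : cr y x = - cr x y := by
  unfold cr; ring

theorem cr_tri (z a b c : ℂ) :
    cr (a - z) (b - z) + cr (b - z) (c - z) + cr (c - z) (a - z) = cr (b - a) (c - a) := by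
  unfold cr
  simp only [Complex.sub_re, Complex.sub_im]
  ring

theorem th_lt (z a b : ℂ) : th z a b ≤ Real.pi ∧ -Real.pi < th z a b :=
  ⟨Complex.arg_le_pi _, Complex.neg_pi_lt_arg _⟩

theorem th_lt_pi {z a b : ℂ} (h : cr (a - z) (b - z) ≠ 0) : th z a b < Real.pi := by
  refine lt_of_le_of_ne (Complex.arg_le_pi _) ?_
  intro h1
  rw [th, Complex.arg_eq_pi_iff] at h1
  rw [im_div] at h1
  by_cases h2 : normSq (a - z) = 0
  · rw [Complex.normSq_eq_zero] at h2
    apply h
    rw [h2]
    simp [cr]
  · exact h (by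
      have := h1.2
      rwa [div_eq_zero_iff, or_iff_left h2] at this)

theorem th_anti {z a b : ℂ} (h : cr (a - z) (b - z) ≠ 0) : th z b a = - th z a b := by
  have h1 : (a - z) / (b - z) = ((b - z) / (a - z))⁻¹ := by rw [inv_div]
  unfold th
  rw [h1, Complex.arg_inv, if_neg]
  exact (th_lt_pi h).ne

theorem th_neg_of {z a b : ℂ} (h : th z a b < 0) : cr (a - z) (b - z) < 0 := by
  unfold th at h
  rw [Complex.arg_neg_iff, im_div] at h
  by_contra h2
  push Not at h2
  have := div_nonneg h2 (Complex.normSq_nonneg (a - z))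
  linarith

theorem cr_ne_left {z a b : ℂ} (h : cr (a - z) (b - z) ≠ 0) : a - z ≠ 0 := by
  intro h1
  rw [h1] at h
  simp [cr] at h

theorem cr_ne_right {z a b : ℂ} (h : cr (a - z) (b - z) ≠ 0) : b - z ≠ 0 := by
  intro h1
  rw [h1] at h
  simp [cr] at h

theorem exp_arg_mul_I {w : ℂ} (hw : w ≠ 0) : exp (arg w * I) = w / ‖w‖ := by
  have h := Complex.norm_mul_exp_arg_mul_I w
  have h2 : (‖w‖ : ℂ) ≠ 0 := by exact_mod_cast norm_ne_zero_iff.mpr hw
  field_simp
  rw [mul_comm]
  exact h

/-- if a product of nonzero numbers is `1`, the sum of the arguments is in `2 π ℤ` -/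
theorem sum_arg {ι : Type*} (s : Finset ι) (w : ι → ℂ) (hw : ∀ i ∈ s, w i ≠ 0)
    (h1 : ∏ i ∈ s, w i = 1) : ∃ k : ℤ, ∑ i ∈ s, arg (w i) = 2 * Real.pi * k := by
  have h2 : exp ((∑ i ∈ s, (arg (w i) : ℝ) : ℝ) * I) = 1 := by
    push_cast
    rw [Finset.sum_mul, Complex.exp_sum]
    rw [Finset.prod_congr rfl (fun i hi => exp_arg_mul_I (hw i hi))]
    rw [Finset.prod_div_distrib, h1]
    have h3 : ∏ i ∈ s, (‖w i‖ : ℂ) = 1 := by
      have h4 : ∏ i ∈ s, ‖w i‖ = 1 := by
        rw [← norm_prod, h1, norm_one]
      exact_mod_cast h4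
    rw [h3, div_one]
  rw [Complex.exp_eq_one_iff] at h2
  obtain ⟨k, hk⟩ := h2
  refine ⟨k, ?_⟩
  have h5 : (((∑ i ∈ s, (arg (w i) : ℝ) : ℝ) : ℂ) * I).im = ((k : ℂ) * (2 * Real.pi * I)).im := by
    rw [hk]
  rw [Complex.mul_I_im, Complex.ofReal_re] at h5
  have h6 : ((k : ℂ) * (2 * Real.pi * I)).im = 2 * Real.pi * k := by
    simp
    ring
  rw [h5, h6]

/-- the winding of a triangle around a point on none of its three lines -/
theorem tri_sum {z a b c : ℂ} (h1 : cr (a - z) (b - z) ≠ 0) (h2 : cr (b - z) (c - z) ≠ 0)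
    (h3 : cr (c - z) (a - z) ≠ 0) :
    th z a b + th z b c + th z c a = 0 ∨ th z a b + th z b c + th z c a = 2 * Real.pi ∨
    (th z a b + th z b c + th z c a = -(2 * Real.pi) ∧ cr (b - a) (c - a) < 0) := by
  have ha := cr_ne_left h1
  have hb := cr_ne_left h2
  have hc := cr_ne_left h3
  obtain ⟨k, hk⟩ := sum_arg (Finset.univ : Finset (Fin 3))
    ![(b - z) / (a - z), (c - z) / (b - z), (a - z) / (c - z)]
    (by
      intro i _
      fin_cases i
      · exact div_ne_zero hb ha
      · exact div_ne_zero hc hb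
      · exact div_ne_zero ha hc)
    (by
      simp [Fin.prod_univ_three]
      field_simp)
  simp [Fin.sum_univ_three] at hk
  change th z a b + th z b c + th z c a = 2 * Real.pi * k at hk
  have p1 := th_lt_pi h1
  have p2 := th_lt_pi h2
  have p3 := th_lt_pi h3
  have q1 := (th_lt z a b).2
  have q2 := (th_lt z b c).2
  have q3 := (th_lt z c a).2
  have hpi := Real.pi_pos
  have k1 : k < 2 := by
    by_contra h
    push Not at h
    have : (2 : ℝ) ≤ k := by exact_mod_cast h
    nlinarith
  have k2 : -2 < k := by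
    by_contra h
    push Not at h
    have : (k : ℝ) ≤ -2 := by exact_mod_cast h
    nlinarith
  have k3 : k = -1 ∨ k = 0 ∨ k = 1 := by omega
  rcases k3 with h | h | h
  · right; right
    have hs : th z a b + th z b c + th z c a = -(2 * Real.pi) := by
      rw [hk, h]; push_cast; ring
    refine ⟨hs, ?_⟩
    have t1 : th z a b < 0 := by linarith
    have t2 : th z b c < 0 := by linarith
    have t3 : th z c a < 0 := by linarith
    have := th_neg_of t1
    have := th_neg_of t2
    have := th_neg_of t3
    rw [← cr_tri z a b c]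
    linarith
  · left; rw [hk, h]; simp
  · right; left; rw [hk, h]; simp

/-- the three angles of a positively oriented triangle have sum `π` -/
theorem angle_sum {a b c : ℂ} (h : 0 < cr (b - a) (c - a)) :
    th a b c + th b c a + th c a b = Real.pi := by
  have hA : cr (b - a) (c - a) = cr (c - b) (a - b) := by
    unfold cr; simp only [Complex.sub_re, Complex.sub_im]; ring
  have hB : cr (b - a) (c - a) = cr (a - c) (b - c) := by
    unfold cr; simp only [Complex.sub_re, Complex.sub_im]; ring
  have hab : b - a ≠ 0 := cr_ne_left (z := a) (a := b) (b := c) h.ne'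
  have hac : c - a ≠ 0 := cr_ne_right (z := a) (a := b) (b := c) h.ne'
  have hcb : c - b ≠ 0 := cr_ne_left (z := b) (a := c) (b := a) (hA ▸ h.ne')
  have hba : a - b ≠ 0 := by intro h0; apply hab; linear_combination -h0
  have hca : a - c ≠ 0 := by intro h0; apply hac; linear_combination -h0
  have hbc : b - c ≠ 0 := by intro h0; apply hcb; linear_combination -h0
  have pos : ∀ z x y : ℂ, 0 < cr (x - z) (y - z) → 0 < th z x y ∧ th z x y < Real.pi := by
    intro z x y hp
    have h1 : 0 < ((y - z) / (x - z)).im := by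
      rw [im_div]
      exact div_pos hp (Complex.normSq_pos.mpr (cr_ne_left hp.ne'))
    refine ⟨?_, th_lt_pi hp.ne'⟩
    have h2 : 0 ≤ th z x y := Complex.arg_nonneg_iff.mpr h1.le
    refine lt_of_le_of_ne h2 ?_
    intro h3
    have h4 : ((y - z) / (x - z)).im = 0 := (Complex.arg_eq_zero_iff.mp h3.symm).2
    linarith
  obtain ⟨k, hk⟩ := sum_arg (Finset.univ : Finset (Fin 4))
    ![(c - a) / (b - a), (a - b) / (c - b), (b - c) / (a - c), -1]
    (by
      intro i _
      fin_cases i
      · exact div_ne_zero hac hab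
      · exact div_ne_zero hba hcb
      · exact div_ne_zero hbc hca
      · simp)
    (by
      simp [Fin.prod_univ_four]
      have e1 : a - b = -(b - a) := by ring
      have e2 : a - c = -(c - a) := by ring
      have e3 : b - c = -(c - b) := by ring
      rw [e1, e2, e3]
      field_simp)
  simp [Fin.sum_univ_four] at hk
  change th a b c + th b c a + th c a b + Real.pi = 2 * Real.pi * k at hk
  have p1 := pos a b c h
  have p2 := pos b c a (hA ▸ h)
  have p3 := pos c a b (hB ▸ h)
  have hpi := Real.pi_pos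
  have k1 : k < 2 := by
    by_contra h'
    push Not at h'
    have : (2 : ℝ) ≤ k := by exact_mod_cast h'
    nlinarith
  have k2 : 0 < k := by
    by_contra h'
    push Not at h'
    have : (k : ℝ) ≤ 0 := by exact_mod_cast h'
    nlinarith
  have k3 : k = 1 := by omega
  rw [k3] at hk
  push_cast at hk
  linarith

theorem th_pos {z x y : ℂ} (hp : 0 < cr (x - z) (y - z)) : 0 < th z x y ∧ th z x y < Real.pi := by
  have h1 : 0 < ((y - z) / (x - z)).im := by
    rw [im_div]
    exact div_pos hp (Complex.normSq_pos.mpr (cr_ne_left hp.ne'))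
  refine ⟨?_, th_lt_pi hp.ne'⟩
  have h2 : 0 ≤ th z x y := Complex.arg_nonneg_iff.mpr h1.le
  refine lt_of_le_of_ne h2 ?_
  intro h3
  have h4 : ((y - z) / (x - z)).im = 0 := (Complex.arg_eq_zero_iff.mp h3.symm).2
  linarith

/-- three mutually tangent circles: the open disc of `a` does not meet the segment `b c` -/
theorem off_segment {a b c z : ℂ} {ra rb rc : ℝ} (hab : dist a b = ra + rb)
    (hac : dist a c = ra + rc) (hbc : dist b c = rb + rc) (hz : dist z a < ra) (hb : 0 < rb)
    (hc : 0 < rc) : (c - z) / (b - z) ∈ Complex.slitPlane := by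
  have hzb : rb < dist z b := by
    have := dist_triangle a z b
    rw [hab, dist_comm a z] at this
    linarith
  have hzc : rc < dist z c := by
    have := dist_triangle a z c
    rw [hac, dist_comm a z] at this
    linarith
  have hb0 : b - z ≠ 0 := by
    intro h
    rw [dist_eq_norm, ← norm_neg, neg_sub, h, norm_zero] at hzb
    linarith
  rw [Complex.mem_slitPlane_iff_arg]
  refine ⟨?_, ?_⟩
  · intro h
    rw [Complex.arg_eq_pi_iff] at h
    set w := (c - z) / (b - z) with hw
    have hwr : w = (w.re : ℂ) := by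
      apply Complex.ext <;> simp [h.2]
    have hcz : c - z = (w.re : ℂ) * (b - z) := by
      rw [← hwr, hw]
      field_simp
    have h1 : dist z c = -w.re * dist z b := by
      rw [dist_eq_norm, ← norm_neg, neg_sub, hcz, norm_mul, Complex.norm_real, Real.norm_eq_abs,
        abs_of_neg h.1, dist_eq_norm, ← norm_neg (z - b), neg_sub]
    have h2 : dist b c = (1 - w.re) * dist z b := by
      have : b - c = ((1 - w.re : ℝ) : ℂ) * (b - z) := by
        push_cast
        linear_combination -hcz
      rw [dist_eq_norm, this, norm_mul, Complex.norm_real, Real.norm_eq_abs,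
        abs_of_pos (by linarith [h.1]), dist_eq_norm, ← norm_neg (z - b), neg_sub]
    have h3 : dist b c = dist z b + dist z c := by rw [h1, h2]; ring
    linarith
  · have hc0 : c - z ≠ 0 := by
      intro h
      rw [dist_eq_norm, ← norm_neg, neg_sub, h, norm_zero] at hzc
      linarith
    exact div_ne_zero hc0 hb0

end

end CPW
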