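import Pool.Agent.Helper46.CP.Tri

/-!
# Disjointness of the discs of a circle packing of a triangulated sphere, by winding numbers
-/

namespace CPW

open Complex

noncomputable section

/-- an oriented simplicial sphere (all ordered triples), laid out in the plane with the triangle `O`
as outer triangle -/
structure Lay (V : Type*) [Fintype V] [DecidableEq V] where
  T : Finset (V × V × V)
  rot : ∀ p q s, (p, q, s) ∈ T → (q, s, p) ∈ T
  uniq : ∀ p q s s', (p, q, s) ∈ T → (p, q, s') ∈ T → s = s'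
  opp : ∀ p q s, (p, q, s) ∈ T → ∃ s', (q, p, s') ∈ T
  hcard : T.card + 12 = 6 * Fintype.card V
  O : V × V × V
  hO : O ∈ T
  c : V → ℂ
  r : V → ℝ
  hr : ∀ v, 0 < r v
  hd : ∀ p q s, (p, q, s) ∈ T → dist (c p) (c q) = r p + r q
  hpos : ∀ p q s, (p, q, s) ∈ T → (p, q, s) ≠ O → (q, s, p) ≠ O → (s, p, q) ≠ O →
    0 < cr (c q - c p) (c s - c p)
  hang : ∀ v, v ≠ O.1 → v ≠ O.2.1 → v ≠ O.2.2 →
    ∑ t ∈ T with t.1 = v, th (c v) (c t.2.1) (c t.2.2) = 2 * Real.pi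

namespace Lay

variable {V : Type*} [Fintype V] [DecidableEq V] (L : Lay V)

theorem rot2 {p q s : V} (h : (p, q, s) ∈ L.T) : (s, p, q) ∈ L.T := L.rot _ _ _ (L.rot _ _ _ h)

theorem c_ne {p q s : V} (h : (p, q, s) ∈ L.T) : p ≠ q := by
  intro h1
  have h2 := L.hd _ _ _ h
  rw [h1, dist_self] at h2
  have := L.hr q
  linarith

theorem cne {p q s : V} (h : (p, q, s) ∈ L.T) : L.c p ≠ L.c q := by
  intro h1
  have h2 := L.hd _ _ _ h
  rw [h1, dist_self] at h2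
  have := L.hr q
  have := L.hr p
  linarith

/-- reversal of a directed edge -/
def rev (t : V × V × V) (h : t ∈ L.T) : V × V × V := (t.2.1, t.1, (L.opp t.1 t.2.1 t.2.2 h).choose)

theorem rev_mem (t : V × V × V) (h : t ∈ L.T) : L.rev t h ∈ L.T :=
  (L.opp t.1 t.2.1 t.2.2 h).choose_spec

theorem ext_T {t t' : V × V × V} (h : t ∈ L.T) (h' : t' ∈ L.T) (h1 : t.1 = t'.1)
    (h2 : t.2.1 = t'.2.1) : t = t' := by
  obtain ⟨p, q, s⟩ := t
  obtain ⟨p', q', s'⟩ := t'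
  simp only at h1 h2
  subst h1 h2
  rw [L.uniq _ _ _ _ h h']

theorem sum_anti (g : V → V → ℝ) (hg : ∀ t ∈ L.T, g t.2.1 t.1 = - g t.1 t.2.1) :
    ∑ t ∈ L.T, g t.1 t.2.1 = 0 := by
  refine Finset.sum_involution (fun t h => L.rev t h) ?_ ?_ ?_ ?_
  · intro t h
    change g t.1 t.2.1 + g t.2.1 t.1 = 0
    rw [hg t h]
    ring
  · intro t h _ h1
    have h2 : t.2.1 = t.1 := by
      have := congrArg Prod.fst h1
      exact this
    exact L.c_ne (p := t.1) (q := t.2.1) (s := t.2.2) h h2.symm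
  · intro t h
    exact L.rev_mem t h
  · intro t h
    exact L.ext_T (L.rev_mem _ _) h rfl rfl

theorem sum_rot (f : V → V → V → ℝ) :
    ∑ t ∈ L.T, f t.2.1 t.2.2 t.1 = ∑ t ∈ L.T, f t.1 t.2.1 t.2.2 := by
  refine Finset.sum_bij' (fun t _ => (t.2.1, t.2.2, t.1)) (fun t _ => (t.2.2, t.1, t.2.1))
    ?_ ?_ ?_ ?_ ?_
  · intro t h
    exact L.rot _ _ _ h
  · intro t h
    exact L.rot2 h
  · intro t _; rfl
  · intro t _; rfl
  · intro t _; rfl

/-- triples at a vertex -/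
def Tv (v : V) : Finset (V × V × V) := L.T.filter (fun t => t.1 = v)

theorem mem_Tv {v : V} {t : V × V × V} : t ∈ L.Tv v ↔ t ∈ L.T ∧ t.1 = v := Finset.mem_filter

theorem sum_link {M : Type*} [AddCommMonoid M] (v : V) (f : V → M) :
    ∑ t ∈ L.Tv v, f t.2.2 = ∑ t ∈ L.Tv v, f t.2.1 := by
  have key : ∀ t ∈ L.Tv v, (t.2.2, v, t.2.1) ∈ L.T := by
    intro t h
    obtain ⟨h1, h2⟩ := L.mem_Tv.mp h
    obtain ⟨p, q, s⟩ := t
    simp only at h2 ⊢
    subst h2
    exact L.rot2 h1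
  refine Finset.sum_bij (fun t h => L.rev _ (key t h)) ?_ ?_ ?_ ?_
  · intro t h
    exact L.mem_Tv.mpr ⟨L.rev_mem _ _, rfl⟩
  · intro t h t' h' h1
    obtain ⟨a1, a2⟩ := L.mem_Tv.mp h
    obtain ⟨b1, b2⟩ := L.mem_Tv.mp h'
    have h2 : t.2.2 = t'.2.2 := congrArg (fun x => x.2.1) h1
    have h3 := key t h
    have h4 := key t' h'
    rw [← h2] at h4
    exact L.ext_T a1 b1 (a2.trans b2.symm) (L.uniq _ _ _ _ h3 h4)
  · intro t h
    obtain ⟨a1, a2⟩ := L.mem_Tv.mp h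
    obtain ⟨p, q, s⟩ := t
    simp only at a2
    subst a2
    obtain ⟨s', hs'⟩ := L.opp _ _ _ a1
    -- (q, p, s')
    have h1 : (p, s', q) ∈ L.T := L.rot _ _ _ hs'
    refine ⟨(p, s', q), L.mem_Tv.mpr ⟨h1, rfl⟩, ?_⟩
    exact L.ext_T (L.rev_mem _ _) a1 rfl rfl
  · intro t h
    rfl

/-- a point on none of the lines of the edges -/
def Gen (z : ℂ) : Prop := ∀ t ∈ L.T, cr (L.c t.1 - z) (L.c t.2.1 - z) ≠ 0

/-- winding of a triple -/
def F (z : ℂ) (t : V × V × V) : ℝ :=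
  th z (L.c t.1) (L.c t.2.1) + th z (L.c t.2.1) (L.c t.2.2) + th z (L.c t.2.2) (L.c t.1)

/-- winding of the link of a vertex -/
def W (v : V) (z : ℂ) : ℝ := ∑ t ∈ L.Tv v, th z (L.c t.2.1) (L.c t.2.2)

theorem total {z : ℂ} (hz : L.Gen z) : ∑ t ∈ L.T, L.F z t = 0 := by
  unfold F
  rw [Finset.sum_add_distrib, Finset.sum_add_distrib]
  have h1 := L.sum_rot (fun a b _ => th z (L.c a) (L.c b))
  have h2 := L.sum_rot (fun a _ b => th z (L.c b) (L.c a))
  have h3 := L.sum_anti (fun a b => th z (L.c a) (L.c b)) (fun t h => th_anti (hz t h))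
  have h4 := L.sum_rot (fun a b _ => th z (L.c a) (L.c b))
  have h5 := L.sum_rot (fun _ a b => th z (L.c a) (L.c b))
  beta_reduce at h1 h2 h3 h4 h5
  linarith

theorem vert (v : V) {z : ℂ} (hz : L.Gen z) : ∑ t ∈ L.Tv v, L.F z t = L.W v z := by
  unfold F W
  rw [Finset.sum_add_distrib, Finset.sum_add_distrib]
  have h1 : ∑ t ∈ L.Tv v, th z (L.c t.2.2) (L.c t.1) = - ∑ t ∈ L.Tv v, th z (L.c t.1) (L.c t.2.1) := by
    have h2 := L.sum_link v (fun q => th z (L.c q) (L.c v))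
    have h3 : ∑ t ∈ L.Tv v, th z (L.c t.2.2) (L.c t.1) = ∑ t ∈ L.Tv v, th z (L.c t.2.2) (L.c v) := by
      refine Finset.sum_congr rfl ?_
      intro t h
      rw [(L.mem_Tv.mp h).2]
    rw [h3, h2, ← Finset.sum_neg_distrib]
    refine Finset.sum_congr rfl ?_
    intro t h
    obtain ⟨a1, a2⟩ := L.mem_Tv.mp h
    rw [← a2]
    exact th_anti (hz t a1)
  rw [h1]
  ring

theorem W_int (v : V) {z : ℂ} (hz : ∀ t ∈ L.Tv v, L.c t.2.1 - z ≠ 0) :
    ∃ k : ℤ, L.W v z = 2 * Real.pi * k := by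
  have hz2 : ∀ t ∈ L.Tv v, L.c t.2.2 - z ≠ 0 := by
    intro t h
    obtain ⟨a1, a2⟩ := L.mem_Tv.mp h
    obtain ⟨p, q, s⟩ := t
    simp only at a2 ⊢
    subst a2
    have h1 := L.rot2 a1
    obtain ⟨s', hs'⟩ := L.opp _ _ _ h1
    exact hz _ (L.mem_Tv.mpr ⟨hs', rfl⟩)
  refine sum_arg (L.Tv v) (fun t => (L.c t.2.2 - z) / (L.c t.2.1 - z)) ?_ ?_
  · intro t h
    exact div_ne_zero (hz2 t h) (hz t h)
  · rw [Finset.prod_div_distrib]
    have h1 : ∏ t ∈ L.Tv v, (L.c t.2.2 - z) = ∏ t ∈ L.Tv v, (L.c t.2.1 - z) := by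
      have := L.sum_link (M := Additive ℂ) v (fun q => Additive.ofMul (L.c q - z))
      exact this
    rw [h1, div_self]
    exact Finset.prod_ne_zero_iff.mpr hz

theorem off {v : V} {z : ℂ} (hz : dist z (L.c v) < L.r v) {t : V × V × V} (h : t ∈ L.Tv v) :
    (L.c t.2.2 - z) / (L.c t.2.1 - z) ∈ Complex.slitPlane := by
  obtain ⟨a1, a2⟩ := L.mem_Tv.mp h
  obtain ⟨p, q, s⟩ := t
  simp only at a2 ⊢
  subst a2
  refine off_segment (a := L.c p) (ra := L.r p) (rb := L.r q) (rc := L.r s) (L.hd _ _ _ a1) ?_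
    (L.hd _ _ _ (L.rot _ _ _ a1)) hz (L.hr q) (L.hr s)
  rw [dist_comm, L.hd _ _ _ (L.rot2 a1)]
  ring

theorem off1 {v : V} {z : ℂ} (hz : dist z (L.c v) < L.r v) {t : V × V × V} (h : t ∈ L.Tv v) :
    L.c t.2.1 - z ≠ 0 := by
  intro h0
  have h1 := L.off hz h
  rw [h0, div_zero] at h1
  exact Complex.slitPlane_ne_zero h1 rfl

theorem W_cont (v : V) : ContinuousOn (L.W v) (Metric.ball (L.c v) (L.r v)) := by
  unfold W
  refine continuousOn_finsetSum _ ?_
  intro t ht z hz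
  have hz' : dist z (L.c v) < L.r v := hz
  have h1 := L.off hz' ht
  have h2 := L.off1 hz' ht
  refine ContinuousAt.continuousWithinAt ?_
  unfold th
  have h3 : ContinuousAt (fun z : ℂ => (L.c t.2.2 - z) / (L.c t.2.1 - z)) z :=
    ContinuousAt.div (continuousAt_const.sub continuousAt_id)
      (continuousAt_const.sub continuousAt_id) h2
  exact ContinuousAt.comp (f := fun z : ℂ => (L.c t.2.2 - z) / (L.c t.2.1 - z))
    (Complex.continuousAt_arg h1) h3

theorem W_const (v : V) {z : ℂ} (hz : dist z (L.c v) < L.r v) : L.W v z = L.W v (L.c v) := by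
  by_contra hne
  have hpc : IsPreconnected (Metric.ball (L.c v) (L.r v)) := (convex_ball _ _).isPreconnected
  have him := (hpc.image _ (L.W_cont v)).ordConnected
  have m1 : L.W v z ∈ L.W v '' Metric.ball (L.c v) (L.r v) := ⟨z, hz, rfl⟩
  have m2 : L.W v (L.c v) ∈ L.W v '' Metric.ball (L.c v) (L.r v) :=
    ⟨L.c v, by simpa using L.hr v, rfl⟩
  have hint : ∀ x ∈ L.W v '' Metric.ball (L.c v) (L.r v), ∃ k : ℤ, x = 2 * Real.pi * k := by
    rintro x ⟨y, hy, rfl⟩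
    exact L.W_int v (fun t ht => L.off1 hy ht)
  have hpi := Real.pi_pos
  have key : ∀ x ∈ L.W v '' Metric.ball (L.c v) (L.r v),
      ∀ y ∈ L.W v '' Metric.ball (L.c v) (L.r v), x < y → False := by
    intro x hx y hy hxy
    obtain ⟨a, ha⟩ := hint x hx
    obtain ⟨b, hb⟩ := hint y hy
    have hab : a < b := by
      have : (a : ℝ) < b := by
        rw [ha, hb] at hxy
        nlinarith
      exact_mod_cast this
    have hab' : (a : ℝ) + 1 ≤ b := by exact_mod_cast hab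
    have h1 : x + Real.pi ∈ L.W v '' Metric.ball (L.c v) (L.r v) := by
      refine him.out hx hy ⟨by linarith, ?_⟩
      rw [ha, hb]
      nlinarith
    obtain ⟨k, hk⟩ := hint _ h1
    rw [ha] at hk
    have h2 : (2 * a + 1 : ℝ) = 2 * k := by
      have : Real.pi * (2 * a + 1) = Real.pi * (2 * k) := by linarith
      exact mul_left_cancel₀ hpi.ne' this
    have h3 : (2 * a + 1 : ℤ) = 2 * k := by exact_mod_cast h2
    omega
  rcases lt_or_gt_of_ne hne with h | h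
  · exact key _ m1 _ m2 h
  · exact key _ m2 _ m1 h

end Lay

end

end CPW
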